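import Mathlib

/-!
# Project VD (MP_07c750_an, quantum unique ergodicity in every dimension), block B1: Q-HYPERBOLIC SEQUENCES (PURE), rows `vd:XXX`

`Z m = W m × W m`, `W m = ℝ^m` (`m = d - 1`), points `(j, w)`, `Q (j, w) = ⟪j, w⟫`. A map `F` defined near `0` is in the class `HYP c C e0` if it is `C^(1,1)` and `Q (DF(a) w) ≥ Q w + c ‖w‖²`: THE ONLY SOURCE OF HYPERBOLICITY (for the geodesic flow `j` = normal Jacobi field, `w` = its covariant derivative, one unit of time).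
No invariant leaves, no cones, no pinching, every dimension. Everything is proved for arbitrary SEQUENCES `F 0, F 1, ..` of such maps (reference orbits, pseudo-orbits with jumps and frozen noise).

RULES. Row `vd:XXX`: file `Pool/Agent/<seat>/VD/XXX.lean`, `import Pool.Agent.helper93.VD.SpecB1`, `set_option autoImplicit false`, namespace `Pool.Agent.VD`, `open scoped InnerProductSpace ContDiff Topology`, `open MeasureTheory Set Filter`, auxiliary lemmas prefixed `XXX_`,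
theorem `XXX_proof (h..) : XXX_stmt` (rows listed in `from` may be used as hypotheses `(h : YYY_stmt)`). No `convert`, `congr!`, `native_decide`, no double quotes, no `private`. Constants are existential: choose them as large (small) as you like; they may depend on `m`.
-/

set_option autoImplicit false

open scoped ContDiff Topology InnerProductSpace
open MeasureTheory Filter Set

namespace Pool.Agent.VD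

noncomputable section

/-! ## Definitions -/

/-- `ℝ^m` -/
abbrev W (m : ℕ) : Type := EuclideanSpace ℝ (Fin m)

/-- `ℝ^m × ℝ^m` with the maximum norm -/
abbrev Z (m : ℕ) : Type := W m × W m

/-- the quadratic form -/
def QQ {m : ℕ} (z : Z m) : ℝ := ⟪z.1, z.2⟫_ℝ

/-- linear Q-hyperbolic maps -/
structure LH {m : ℕ} (c C : ℝ) (L : Z m →L[ℝ] Z m) : Prop where
  bd : ∀ w, ‖L w‖ ≤ C * ‖w‖
  lo : ∀ w, ‖w‖ ≤ C * ‖L w‖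
  hy : ∀ w, QQ w + c * ‖w‖ ^ 2 ≤ QQ (L w)

/-- Q-hyperbolic maps on the ball of radius `e0` -/
structure HYP {m : ℕ} (c C e0 : ℝ) (F : Z m → Z m) : Prop where
  cd : ContDiffOn ℝ 1 F (Metric.ball 0 e0)
  lh : ∀ a ∈ Metric.ball (0 : Z m) e0, LH c C (fderiv ℝ F a)
  lip : ∀ a ∈ Metric.ball (0 : Z m) e0, ∀ b ∈ Metric.ball (0 : Z m) e0, ‖fderiv ℝ F a - fderiv ℝ F b‖ ≤ C * ‖a - b‖

/-- products of linear maps -/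
def pl {m : ℕ} (L : ℕ → Z m →L[ℝ] Z m) : ℕ → Z m →L[ℝ] Z m
  | 0 => ContinuousLinearMap.id ℝ (Z m)
  | n + 1 => (L n).comp (pl L n)

/-- compositions of maps -/
def it {m : ℕ} (F : ℕ → Z m → Z m) : ℕ → Z m → Z m
  | 0 => id
  | n + 1 => fun a => F n (it F n a)

/-- the block `w ↦ (T (0, w)).1` -/
def Bk {m : ℕ} (T : Z m →L[ℝ] Z m) : W m →L[ℝ] W m := (ContinuousLinearMap.fst ℝ (W m) (W m)).comp (T.comp (ContinuousLinearMap.inr ℝ (W m) (W m)))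

/-- its determinant: the growth of the volume -/
def dB {m : ℕ} (T : Z m →L[ℝ] Z m) : ℝ := |(Bk T).det|

/-- orbits of length `n` in the closed ball of radius `e` -/
def Orb {m : ℕ} (F : ℕ → Z m → Z m) (n : ℕ) (e : ℝ) (a : ℕ → Z m) : Prop := (∀ i < n, a (i + 1) = F i (a i)) ∧ ∀ i ≤ n, ‖a i‖ ≤ e

/-- pseudo-orbits with the errors `ε` -/
def POrb {m : ℕ} (F : ℕ → Z m → Z m) (n : ℕ) (e ε : ℝ) (a : ℕ → Z m) : Prop := (∀ i < n, ‖a (i + 1) - F i (a i)‖ ≤ ε) ∧ ∀ i ≤ n, ‖a i‖ ≤ e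

/-! ## 1. Linear sequences -/

/-- **Row LPC** (the vertical plane enters the positive cone; short-medium; PURE). `u_i = pl L i (0, w)`: `Q u_0 = 0`, `Q u_(i+1) ≥ Q u_i + c ‖u_i‖²`, `Q u ≤ ‖u‖²`: so `Q u_(i+1) ≥ (1 + c) Q u_i` and `Q u_1 ≥ c ‖w‖²`: first claim. For `i ≥ 1`: `‖u_i.1‖ ‖u_i.2‖ ≥ Q u_i ≥ c ‖u_(i-1)‖² ≥ (c/C²) ‖u_i‖²`, so (`‖u‖ = max`) both
`‖u_i.1‖, ‖u_i.2‖ ≥ (c/C²) ‖u_i‖`: second claim with `K = C²/c`. `c ≤ C²` because `c ‖w‖² ≤ Q (L w) - Q w ≤ (C² + 1) ‖w‖²`. Injective linear maps of `ℝ^m` are invertible: `det ≠ 0` (for `m = 0` everything is trivial: `det = 1`). -/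
def LPC_stmt : Prop := ∀ (m : ℕ) (c C : ℝ), 0 < c → 1 ≤ C → ∃ K : ℝ, 1 ≤ K ∧ ∀ L : ℕ → Z m →L[ℝ] Z m, (∀ i, LH c C (L i)) → ∀ n : ℕ, 1 ≤ n → ∀ w : W m,
  c * (1 + c) ^ (n - 1) * ‖w‖ ^ 2 ≤ QQ (pl L n (0, w)) ∧ ‖pl L n (0, w)‖ ≤ K * ‖(pl L n (0, w)).1‖ ∧ ‖pl L n (0, w)‖ ≤ K * ‖(pl L n (0, w)).2‖ ∧
  (1 + c) ^ n * ‖w‖ ^ 2 ≤ K * ‖(pl L n (0, w)).1‖ ^ 2 ∧ 0 < dB (pl L n)

/-- **Row LDE** (determinants; short-medium; PURE). On the compact set of pairs (or: `X' = X (1 + X⁻¹ (X' - X))`, `‖X⁻¹‖ ≤ K`; `det` is a polynomial in the entries, so Lipschitz on `‖X‖ ≤ K`, and `|det X| ≥ K^(-m)` because `‖X⁻¹‖ ≤ K`, `|det X⁻¹| ≤ (const) K^m`): `|log |det X| - log |det X'|| ≤ K' ‖X - X'‖`. -/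
def LDE_stmt : Prop := ∀ (m : ℕ) (K : ℝ), 1 ≤ K → ∃ K' : ℝ, 1 ≤ K' ∧ ∀ X X' : W m →L[ℝ] W m, (∀ x, ‖x‖ ≤ K * ‖X x‖ ∧ ‖X x‖ ≤ K * ‖x‖) → (∀ x, ‖x‖ ≤ K * ‖X' x‖ ∧ ‖X' x‖ ≤ K * ‖x‖) →
  0 < abs X.det ∧ abs X.det ≤ K' ∧ 1 ≤ K' * abs X.det ∧ abs (Real.log (abs X.det) - Real.log (abs X'.det)) ≤ K' * ‖X - X'‖

/-- **Row LMX** (THE MIDDLE FACTOR, helper94's lemma; medium; PURE; from LPC). `P = pl Ps k`, `R = pl Rs l`, `k, l ≥ 0`. `α : Z → W`: `α = fst` if `k = 0`, `α = (Bk P)⁻¹ ∘ fst ∘ P` if `k ≥ 1`, so `(P z).1 = Bk P (α z)`, `α (j, w) = w - S j`, `S = -(Bk P)⁻¹ ∘ (x ↦ (P (x, 0)).1)`; `β : W → Z`: `β w = (0, w)` if `l = 0`, `β = R ∘ inr ∘ (Bk R)⁻¹` if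
`l ≥ 1`, `β j = (j, U j)`. `X L = α ∘ L ∘ β`; `Bk (P L R) = Bk P ∘ X L ∘ Bk R` (without `Bk P` if `k = 0`, without `Bk R` if `l = 0`): `q` = the product of the absolute values of the determinants of the factors that are present. BOUNDS: `(x, S x)` is mapped by `P` to `(0, ·)`: `0 = Q (P (x, S x)) ≥ Q (x, S x) + c ‖(x, S x)‖²` (the first of the `k ≥ 1` factors):
`⟪x, S x⟫ ≤ -c ‖(x, S x)‖²`, `‖S x‖ ≤ ‖x‖/c`, so `‖α‖ ≤ 1 + 1/c` and `Q z = ⟪j, w⟫ = ⟪j, α z⟫ + ⟪j, S j⟫ ≤ ‖z‖ ‖α z‖` (also for `k = 0`). `Q (β j) ≥ 0`, `‖j‖ ≤ ‖β j‖ ≤ K ‖j‖` (LPC). For `z = L (β j)`: `Q z ≥ c ‖β j‖² ≥ (c/C²) ‖z‖²`, so `‖α z‖ ≥ (c/C²) ‖z‖ ≥ (c/C³) ‖j‖`. For `L = id`, `k, l ≥ 1`: `z = β j` is in the image of the last factor of `R`,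
`Q z ≥ (c/C²) ‖z‖²`: the same. `X` is linear in `L`: `‖X L - X L'‖ ≤ ‖α‖ ‖β‖ ‖L - L'‖`. -/
def LMX_stmt : Prop := ∀ (m : ℕ) (c C : ℝ), 0 < c → 1 ≤ C → ∃ K : ℝ, 1 ≤ K ∧ ∀ (Ps Rs : ℕ → Z m →L[ℝ] Z m), (∀ i, LH c C (Ps i)) → (∀ i, LH c C (Rs i)) → ∀ k l : ℕ, ∃ (X : (Z m →L[ℝ] Z m) → (W m →L[ℝ] W m)) (q : ℝ), 0 < q ∧
  (∀ L L' : Z m →L[ℝ] Z m, ‖X L - X L'‖ ≤ K * ‖L - L'‖) ∧
  (∀ L : Z m →L[ℝ] Z m, LH c C L → (∀ x, ‖x‖ ≤ K * ‖X L x‖ ∧ ‖X L x‖ ≤ K * ‖x‖) ∧ dB ((pl Ps k).comp (L.comp (pl Rs l))) = q * abs (X L).det) ∧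
  (1 ≤ k → 1 ≤ l → q = dB (pl Ps k) * dB (pl Rs l) ∧ (∀ x, ‖x‖ ≤ K * ‖X (ContinuousLinearMap.id ℝ (Z m)) x‖ ∧ ‖X (ContinuousLinearMap.id ℝ (Z m)) x‖ ≤ K * ‖x‖) ∧
    dB ((pl Ps k).comp (pl Rs l)) = q * abs (X (ContinuousLinearMap.id ℝ (Z m))).det)

/-- **Row LDI** (DISTORTION, linear; short-medium; PURE; from LMX, LDE). Replace the factors one by one: for `i < n` the products `L' (n-1) ⋯ L' (i+1) ∘ L i ∘ L (i-1) ⋯ L 0` and `L' (n-1) ⋯ L' (i+1) ∘ L' i ∘ L (i-1) ⋯ L 0` have by LMX the same `q` and `α, β`: the logarithms of `dB` differ by `|log |det X (L i)| - log |det X (L' i)|| ≤ K' K ‖L i - L' i‖` (LDE). (Needed: `pl L n =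
(pl (fun j => L (i + 1 + j)) (n - 1 - i)).comp ((L i).comp (pl L i))`.) -/
def LDI_stmt : Prop := ∀ (m : ℕ) (c C : ℝ), 0 < c → 1 ≤ C → ∃ K : ℝ, 1 ≤ K ∧ ∀ L L' : ℕ → Z m →L[ℝ] Z m, (∀ i, LH c C (L i)) → (∀ i, LH c C (L' i)) → ∀ n : ℕ, 1 ≤ n →
  abs (Real.log (dB (pl L n)) - Real.log (dB (pl L' n))) ≤ K * ∑ i ∈ Finset.range n, ‖L i - L' i‖

/-- **Row LQM** (QUASI-MULTIPLICATIVITY; short; PURE; from LMX, LDE). `pl L (n+k) = (pl (fun i => L (n + i)) k).comp (pl L n)` (induction on `k`), LMX with `L = id`: `dB (pl L (n+k)) = dB .. * dB .. * |det X|`, and `|det X|` is between two constants (LDE). -/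
def LQM_stmt : Prop := ∀ (m : ℕ) (c C : ℝ), 0 < c → 1 ≤ C → ∃ K : ℝ, 1 ≤ K ∧ ∀ L : ℕ → Z m →L[ℝ] Z m, (∀ i, LH c C (L i)) → ∀ n k : ℕ, 1 ≤ n → 1 ≤ k →
  dB (pl L (n + k)) ≤ K * (dB (pl L n) * dB (pl (fun i => L (n + i)) k)) ∧ dB (pl L n) * dB (pl (fun i => L (n + i)) k) ≤ K * dB (pl L (n + k))

/-- **Row LGB** (growth of the determinant; short-medium; PURE; from LPC, LQM, LDE). `dB (pl L 1)` is bounded (LDE with `X = Bk (L 0)`, LPC for `n = 1`), LQM: `dB (pl L n) ≤ K^n`. Lower bound: `‖Bk (pl L n) w‖ ≥ c₁ (1+c)^(n/2) ‖w‖` (LPC, fourth claim), so `|det| ≥ (c₁ (1+c)^(n/2))^m` (the image of the unit ball under the inverse map is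
contained in a ball: `Measure.addHaar_image_continuousLinearMap`). For `m ≥ 1`. -/
def LGB_stmt : Prop := ∀ (m : ℕ) (c C : ℝ), 1 ≤ m → 0 < c → 1 ≤ C → ∃ K μ : ℝ, 1 ≤ K ∧ 0 < μ ∧ ∀ L : ℕ → Z m →L[ℝ] Z m, (∀ i, LH c C (L i)) → ∀ n : ℕ, 1 ≤ n → dB (pl L n) ≤ K ^ n ∧ Real.exp (μ * n) ≤ K * dB (pl L n)

/-! ## 2. Nonlinear sequences -/

/-- **Row NFD** (finite differences; short-medium; PURE). `e1 ≤ e0/2`, `C e1 ≤ c/(100 C)` ... `F a - F b = L (a - b) + r`, `L = fderiv ℝ F b`, `‖r‖ ≤ C ‖a - b‖² ≤ 2 C e1 ‖a - b‖` (mean value inequality for `F - L` on the ball, which is convex; `lip`). `|Q (u + r) - Q u| ≤ 2 ‖u‖ ‖r‖ + ‖r‖²`, `‖L (a-b)‖ ≤ C ‖a - b‖`. -/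
def NFD_stmt : Prop := ∀ (m : ℕ) (c C e0 : ℝ), 0 < c → 1 ≤ C → 0 < e0 → ∃ e1 : ℝ, 0 < e1 ∧ e1 ≤ e0 / 2 ∧ ∀ F : Z m → Z m, HYP c C e0 F → ∀ a b : Z m, ‖a‖ ≤ e1 → ‖b‖ ≤ e1 →
  QQ (a - b) + c / 2 * ‖a - b‖ ^ 2 ≤ QQ (F a - F b) ∧ ‖F a - F b‖ ≤ C * ‖a - b‖ ∧ ‖a - b‖ ≤ 2 * C * ‖F a - F b‖

/-- **Row NWS** (WEIGHTED SUMS; medium; PURE; from NFD). `δ i = a i - b i`, `δ (i+1) = F a - F b + r`, `‖r‖ ≤ 2 ε`: `Q (δ (i+1)) ≥ Q (δ i) + (c/2) ‖δ i‖² - K (ε ‖δ i‖ + ε²)` (NFD). Fix `k`, weights `ω i = exp (-μ |i - k|)`: `ω_n Q(δ n) - ω_0 Q(δ 0) = Σ_(i<n) [ω_(i+1) (Q(δ(i+1)) - Q(δ i)) + (ω_(i+1) - ω_i) Q(δ i)]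
≥ Σ ω_(i+1) [(c/2) ‖δ i‖² - K ε ‖δ i‖ - K ε² - (e^μ - 1) ‖δ i‖²] ≥ Σ ω_(i+1) [(c/8) ‖δ i‖² - K' ε²]` for `e^μ - 1 ≤ c/8`, `|Q u| ≤ ‖u‖²`. `Σ ω ≤ K''`. Take the term `i = k` (if `k < n`), for `k = n` use `‖δ n‖ ≤ C ‖δ (n-1)‖ + 2 ε`, and `n = 0` is trivial: `‖δ 0‖²`: use the hypothesis `1 ≤ n`. -/
def NWS_stmt : Prop := ∀ (m : ℕ) (c C e0 : ℝ), 0 < c → 1 ≤ C → 0 < e0 → ∃ e1 μ K : ℝ, 0 < e1 ∧ e1 ≤ e0 / 2 ∧ 0 < μ ∧ 1 ≤ K ∧ ∀ (F : ℕ → Z m → Z m) (n : ℕ) (ε : ℝ) (a b : ℕ → Z m), (∀ i, HYP c C e0 (F i)) → 1 ≤ n → 0 ≤ ε → POrb F n e1 ε a → POrb F n e1 ε b → ∀ k ≤ n,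
  ‖a k - b k‖ ^ 2 ≤ K * (ε ^ 2 + Real.exp (-(μ * k)) * max 0 (-QQ (a 0 - b 0)) + Real.exp (-(μ * (n - k))) * max 0 (QQ (a n - b n)))

/-- **Row NBD** (BOUNDARY VALUES; medium; PURE; from NWS). `x = ‖(δ 0).1‖`, `y = ‖(δ n).1‖`, `A = ‖δ 0‖`, `B = ‖δ n‖`, `q = exp (-μ n)`. NWS for `k = 0`, `k = n` (`|Q u| ≤ ‖u.1‖ ‖u‖`): `A² ≤ K (ε² + x A + q y B)`, `B² ≤ K (ε² + q x A + y B)`, so `A ≤ K₁ (ε + x + √q (y + B))`, `B ≤ K₁ (ε + y + √q (x + A))`. If `K₁² q ≤ 1/2`: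
`A ≤ K₂ (ε + x + √q y)`, `B ≤ K₂ (ε + y + √q x)`; otherwise `n` is bounded, `√q ≥ 1/K₃`, and the two inequalities give `A + B ≤ K₄ (ε + x + y)` (from `A² + B² ≤ K (2 ε² + 2 x A + 2 y B)`). Then NWS for `k`: all products are bounded by `(ε + e^(-μk/2) x + e^(-μ(n-k)/2) y)²` (`√q = e^(-μk/2) e^(-μ(n-k)/2)`). Replace `μ` by `μ/2`. -/
def NBD_stmt : Prop := ∀ (m : ℕ) (c C e0 : ℝ), 0 < c → 1 ≤ C → 0 < e0 → ∃ e1 μ K : ℝ, 0 < e1 ∧ e1 ≤ e0 / 2 ∧ 0 < μ ∧ 1 ≤ K ∧ ∀ (F : ℕ → Z m → Z m) (n : ℕ) (ε : ℝ) (a b : ℕ → Z m), (∀ i, HYP c C e0 (F i)) → 1 ≤ n → 0 ≤ ε → POrb F n e1 ε a → POrb F n e1 ε b → ∀ k ≤ n,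
  ‖a k - b k‖ ≤ K * (ε + Real.exp (-(μ * k)) * ‖(a 0 - b 0).1‖ + Real.exp (-(μ * (n - k))) * ‖(a n - b n).1‖)

/-- **Row NRC** (recentering; short; PURE). `G i x = F i (a i + x) - a (i + 1)`: `fderiv (G i) x = fderiv (F i) (a i + x)`, balls: `‖a i‖ ≤ e0/2`. -/
def NRC_stmt : Prop := ∀ (m : ℕ) (c C e0 : ℝ) (F : Z m → Z m) (p q : Z m), HYP c C e0 F → ‖p‖ ≤ e0 / 2 → HYP c C (e0 / 2) (fun x => F (p + x) - q)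

/-- **Row NDE** (derivative of the composition; short-medium; PURE). On the open set `{a | ∀ i < n, ‖it F i a‖ < e0}` the map `it F n` is `C¹` and its derivative at `a` is `pl (fun i => fderiv ℝ (F i) (it F i a)) n`. The maps beyond `n` do not matter: the sequence `L i = fderiv ℝ (F i) (it F i a)` for `i < n`, `L i = fderiv ℝ (F i) 0` for `i ≥ n` is in `LH c C`. -/
def NDE_stmt : Prop := ∀ (m : ℕ) (c C e0 : ℝ) (F : ℕ → Z m → Z m) (n : ℕ) (a : Z m), 0 < e0 → (∀ i, HYP c C e0 (F i)) → (∀ i < n, ‖it F i a‖ < e0) → ∃ L : ℕ → Z m →L[ℝ] Z m, (∀ i, LH c C (L i)) ∧ (∀ i < n, L i = fderiv ℝ (F i) (it F i a)) ∧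
  HasStrictFDerivAt (it F n) (pl L n) a ∧ fderiv ℝ (it F n) a = pl L n

/-- **Row NSU** (SURJECTIVITY of the end point map, exact reference orbit; medium; PURE; from NBD, NDE, LPC). `F i 0 = 0`. `Φ a = (a.1, (it F n a).1)`. `T = {(x, y) : ‖x‖, ‖y‖ ≤ e2, ∃ a, Φ a = (x, y), ‖it F i a‖ ≤ e1/2 for all i ≤ n}` (`e2 = e1/(8 K)`). Contains `(0, 0)`; closed (compactness of the closed balls, continuity); OPEN in the closed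
polydisc: NBD with `b = 0`, `ε = 0` gives `‖it F i a‖ ≤ 2 K e2 < e1/2`, so `a` is interior, and `Φ` has the strict derivative `u ↦ (u.1, (pl L n u).1)` at `a` (NDE), injective: `u.1 = 0` and `(pl L n u).1 = 0` give `Q u = Q (pl L n u) = 0`, but `Q (pl L n u) ≥ Q u + c ‖u‖²` (`n ≥ 1`, `Q` nondecreasing), so `u = 0`; hence bijective
(finite dimension) and `Φ` is open at `a` (`HasStrictFDerivAt.map_nhds_eq_of_equiv`). The polydisc is preconnected (convex): `T` is everything (`IsPreconnected.subset_isClopen` or `isClopen_iff` on the subtype). -/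
def NSU_stmt : Prop := ∀ (m : ℕ) (c C e0 : ℝ), 0 < c → 1 ≤ C → 0 < e0 → ∃ e1 e2 K : ℝ, 0 < e1 ∧ e1 ≤ e0 / 2 ∧ 0 < e2 ∧ 1 ≤ K ∧ ∀ (F : ℕ → Z m → Z m) (n : ℕ), (∀ i, HYP c C e0 (F i)) → (∀ i, F i 0 = 0) → 1 ≤ n → ∀ x y : W m, ‖x‖ ≤ e2 → ‖y‖ ≤ e2 →
  ∃ a : Z m, a.1 = x ∧ (it F n a).1 = y ∧ ∀ i ≤ n, ‖it F i a‖ ≤ K * (‖x‖ + ‖y‖) ∧ ‖it F i a‖ ≤ e1

/-- **Row NSH** (SHADOWING; medium; PURE; from NBD, NSU, NRC, NFD). Offsets `‖F i 0‖ ≤ ε ≤ e2`. Induction on `n ≥ 1`; statement for `n`: for all `‖x‖, ‖y‖ ≤ e2` there is an orbit `a` with `(a 0).1 = x`, `(a n).1 = y`, `‖a i‖ ≤ e1`. A priori estimate: `b = 0` is a pseudo-orbit with the errors `ε`, so NBD gives `‖a k‖ ≤ K (ε + e^(-μk) ‖x‖ + e^(-μ(n-k)) ‖y‖) ≤ 3 K e2` for EVERY such orbit.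
Step: the orbit `a` of length `n` with `(a 0).1 = x`, `(a n).1 = 0` (for `n = 0`: `a 0 = (x, 0)`), `a (n+1) := F n (a n)`, `‖a (n+1)‖ ≤ C ‖a n‖ + ε` is small. `G i u = F i (a i + u) - a (i+1)` (NRC, `HYP c C (e0/2)`, `G i 0 = 0`; for `i > n` take `G i = G 0`), NSU for `G`, length `n + 1`, end points `(0, y - (a (n+1)).1)`: `a i + u i` is the orbit. -/
def NSH_stmt : Prop := ∀ (m : ℕ) (c C e0 : ℝ), 0 < c → 1 ≤ C → 0 < e0 → ∃ e1 e2 μ K : ℝ, 0 < e1 ∧ e1 ≤ e0 / 2 ∧ 0 < e2 ∧ 0 < μ ∧ 1 ≤ K ∧ ∀ (F : ℕ → Z m → Z m) (n : ℕ) (ε : ℝ), (∀ i, HYP c C e0 (F i)) → 0 ≤ ε → ε ≤ e2 → (∀ i, ‖F i 0‖ ≤ ε) → 1 ≤ n → ∀ x y : W m, ‖x‖ ≤ e2 → ‖y‖ ≤ e2 →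
  ∃ a : ℕ → Z m, Orb F n e1 a ∧ (a 0).1 = x ∧ (a n).1 = y ∧ ∀ k ≤ n, ‖a k‖ ≤ K * (ε + Real.exp (-(μ * k)) * ‖x‖ + Real.exp (-(μ * (n - k))) * ‖y‖)

/-- **Row NDI** (DISTORTION along nearby orbits; medium; PURE; from NBD, NDE, LDI). Two points whose orbits stay in the ball `e1` for `i ≤ n`: `Σ_(i<n) ‖it F i a - it F i b‖ ≤ K Σ (e^(-μi) + e^(-μ(n-i))) 2 e1 ≤ K'` (NBD, `ε = 0`), the linear maps differ by `C ‖it F i a - it F i b‖` (`lip`), LDI. -/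
def NDI_stmt : Prop := ∀ (m : ℕ) (c C e0 : ℝ), 0 < c → 1 ≤ C → 0 < e0 → ∃ e1 K : ℝ, 0 < e1 ∧ e1 ≤ e0 / 2 ∧ 1 ≤ K ∧ ∀ (F : ℕ → Z m → Z m) (n : ℕ) (a b : Z m), (∀ i, HYP c C e0 (F i)) → 1 ≤ n → (∀ i ≤ n, ‖it F i a‖ ≤ e1) → (∀ i ≤ n, ‖it F i b‖ ≤ e1) →
  0 < dB (fderiv ℝ (it F n) a) ∧ dB (fderiv ℝ (it F n) a) ≤ K * dB (fderiv ℝ (it F n) b)

/-! ## 3. Volumes -/

/-- **Row VDC** (VOLUME OF THE VERTICAL DISC; medium; PURE; from NBD, NDE, NDI, NSH, NRC). `D = dB (fderiv (it F n) 0)` for an exact reference orbit `F i 0 = 0`. `S = {w | ∀ i ≤ n, ‖it F i (x, w)‖ ≤ e}` (`x` fixed, `‖x‖ ≤ e`). The map `ψ w = (it F n (x, w)).1` is injective on `S` (NBD, `ε = 0`: equal end points give equal orbits), `C¹` with the derivative `Bk (fderiv (it F n) (x, w))` of determinant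
between `D/K` and `K D` (NDI); its image is contained in the ball `e` and, if `‖x‖ ≤ e/K`, contains the ball `e/K` (NSU/NSH with `ε = 0`: the orbit is `≤ K (‖x‖ + ‖y‖) ≤ e`). `∫_S |det Dψ| = vol ψ(S)` (`MeasureTheory.lintegral_abs_det_fderiv_eq_addHaar_image`). -/
def VDC_stmt : Prop := ∀ (m : ℕ) (c C e0 : ℝ), 0 < c → 1 ≤ C → 0 < e0 → ∃ e1 K : ℝ, 0 < e1 ∧ e1 ≤ e0 / 2 ∧ 1 ≤ K ∧ ∀ (F : ℕ → Z m → Z m) (n : ℕ) (e : ℝ) (x : W m), (∀ i, HYP c C e0 (F i)) → (∀ i, F i 0 = 0) → 1 ≤ n → 0 < e → e ≤ e1 → ‖x‖ ≤ e →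
  ENNReal.ofReal (dB (fderiv ℝ (it F n) 0)) * volume {w : W m | ∀ i ≤ n, ‖it F i (x, w)‖ ≤ e} ≤ ENNReal.ofReal (K * e ^ m) ∧
  (K * ‖x‖ ≤ e → ENNReal.ofReal (e ^ m / K) ≤ ENNReal.ofReal (dB (fderiv ℝ (it F n) 0)) * volume {w : W m | ∀ i ≤ n, ‖it F i (x, w)‖ ≤ e})

/-- **Row VFU** (VOLUME OF THE BOWEN BALL; short-medium; PURE; from VDC). Fubini in the first component: `{a | ∀ i ≤ n, ‖it F i a‖ ≤ e}`, `volume` of `Z m` is the product (`Measure.volume_eq_prod`, `Measure.prod_apply`); the ball `‖x‖ ≤ e` has the volume `c_m e^m`. Measurability: closed in the open set where everything is defined (intersect with `‖it F i a‖ ≤ e`, `i ≤ n`, step by step), or use outer measure inequalities. -/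
def VFU_stmt : Prop := ∀ (m : ℕ) (c C e0 : ℝ), 0 < c → 1 ≤ C → 0 < e0 → ∃ e1 K : ℝ, 0 < e1 ∧ e1 ≤ e0 / 2 ∧ 1 ≤ K ∧ ∀ (F : ℕ → Z m → Z m) (n : ℕ) (e : ℝ), (∀ i, HYP c C e0 (F i)) → (∀ i, F i 0 = 0) → 1 ≤ n → 0 < e → e ≤ e1 →
  ENNReal.ofReal (dB (fderiv ℝ (it F n) 0)) * volume {a : Z m | ∀ i ≤ n, ‖it F i a‖ ≤ e} ≤ ENNReal.ofReal (K * e ^ (2 * m)) ∧
  ENNReal.ofReal (e ^ (2 * m) / K) ≤ ENNReal.ofReal (dB (fderiv ℝ (it F n) 0)) * volume {a : Z m | ∀ i ≤ n, ‖it F i a‖ ≤ e}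

/-- **Row NGV** (volumes and concatenation; short; PURE; from VFU, NDE, LQM). `n, k ≥ 1`: VFU for the two factors and for `n + k`, `dB (fderiv (it F (n+k)) 0) ≤ K dB (fderiv (it F n) 0) dB (fderiv (it (fun j => F (n + j)) k) 0)` (NDE: `fderiv (it F n) 0 = pl L n`, `L i = fderiv (F i) 0` for `i < n`; LQM). `n = 0` or `k = 0`: VFU twice (radii `ρ` and `ρ'`), `volume (closedBall 0 ρ) < ∞`;
`n = k = 0`: volumes of balls. -/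
def NGV_stmt : Prop := ∀ (m : ℕ) (c C e0 : ℝ), 0 < c → 1 ≤ C → 0 < e0 → ∃ e1 : ℝ, 0 < e1 ∧ e1 ≤ e0 / 2 ∧ ∀ ρ' ρ : ℝ, 0 < ρ' → ρ' ≤ ρ → ρ ≤ e1 → ∃ C' : ℝ, 1 ≤ C' ∧ ∀ (F : ℕ → Z m → Z m) (n k : ℕ), (∀ i, HYP c C e0 (F i)) → (∀ i, F i 0 = 0) →
  volume {a : Z m | ∀ i ≤ n, ‖it F i a‖ ≤ ρ} * volume {a : Z m | ∀ i ≤ k, ‖it (fun j => F (n + j)) i a‖ ≤ ρ} ≤ ENNReal.ofReal C' * volume {a : Z m | ∀ i ≤ n + k, ‖it F i a‖ ≤ ρ'}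

end

end Pool.Agent.VD
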