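import Pool.Agent.helper93.VD.SpecB4a

set_option autoImplicit false

open MeasureTheory Filter Set Topology
open scoped ENNReal

namespace Pool.Agent.VDL

open Pool.Agent.VDE (BB av)

theorem LCN_ind {S : Type} [TopologicalSpace S] [MeasurableSpace S] {μ : Measure S} {d : S → S → ℝ} {f : ℝ → S → S} {ε C : ℝ} (hVL : VL μ d f ε C) {h : S → ℝ} {M e T0 : ℝ}
    (he : 0 < e) (hT0 : 0 < T0) (hc : Continuous h) (hb : ∀ x, |h x| ≤ 1) (hM : |M| ≤ 1) :
    ∀ (n : ℕ) (x : S), |(∫ t in (0 : ℝ)..(n * T0), h (f t x)) - n * T0 * M| ≤ T0 * (2 * (nb f h M e T0 n x : ℝ) + e / 2 * n) := by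
  have hcx : ∀ z : S, Continuous (fun t : ℝ => h (f t z)) := fun z => hc.comp (hVL.fcn.comp (by fun_prop : Continuous (fun t : ℝ => (t, z))))
  have hone : ∀ z : S, |(∫ t in (0 : ℝ)..T0, h (f t z)) - T0 * M| ≤ T0 * (2 * ((if e / 2 ≤ |av f h T0 z - M| then 1 else 0 : ℕ) : ℝ) + e / 2) := by
    intro z
    have h1 : (∫ t in (0 : ℝ)..T0, h (f t z)) - T0 * M = T0 * (av f h T0 z - M) := by
      unfold av
      field_simp
    have h2 : ‖∫ t in (0 : ℝ)..T0, h (f t z)‖ ≤ 1 * |T0 - 0| := intervalIntegral.norm_integral_le_of_norm_le_const (fun t _ => by simpa using hb (f t z))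
    rw [Real.norm_eq_abs, sub_zero, abs_of_pos hT0, one_mul] at h2
    rw [h1, abs_mul, abs_of_pos hT0]
    apply mul_le_mul_of_nonneg_left _ hT0.le
    by_cases hbad : e / 2 ≤ |av f h T0 z - M|
    · rw [if_pos hbad]
      have h3 : |av f h T0 z| ≤ 1 := by
        unfold av
        rw [abs_mul, abs_of_pos (inv_pos.mpr hT0)]
        calc T0⁻¹ * |∫ t in (0 : ℝ)..T0, h (f t z)| ≤ T0⁻¹ * T0 := by gcongr
          _ = 1 := by field_simp
      have h4 : |av f h T0 z - M| ≤ |av f h T0 z| + |M| := abs_sub _ _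
      push_cast
      linarith
    · rw [if_neg hbad]
      push_cast
      push Not at hbad
      linarith
  intro n
  induction n with
  | zero => intro x; simp [nb]
  | succ n ih =>
    intro x
    have h1 : (∫ t in (0 : ℝ)..(((n + 1 : ℕ) : ℝ) * T0), h (f t x)) = (∫ t in (0 : ℝ)..T0, h (f t x)) + ∫ t in (0 : ℝ)..(n * T0), h (f t (f T0 x)) := by
      have h2 : (∫ t in (0 : ℝ)..(n * T0), h (f t (f T0 x))) = ∫ t in (0 : ℝ)..(n * T0), (fun u => h (f u x)) (t + T0) := by
        apply intervalIntegral.integral_congr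
        intro t _
        show h (f t (f T0 x)) = h (f (t + T0) x)
        rw [hVL.fa]
      rw [h2, intervalIntegral.integral_comp_add_right (fun u => h (f u x)) T0, zero_add]
      have h3 : (n : ℝ) * T0 + T0 = ((n + 1 : ℕ) : ℝ) * T0 := by push_cast; ring
      rw [h3, intervalIntegral.integral_add_adjacent_intervals ((hcx x).intervalIntegrable _ _) ((hcx x).intervalIntegrable _ _)]
    have h4 := hone x
    have h5 := ih (f T0 x)
    have h6 : (nb f h M e T0 (n + 1) x : ℝ) = ((if e / 2 ≤ |av f h T0 x - M| then 1 else 0 : ℕ) : ℝ) + (nb f h M e T0 n (f T0 x) : ℝ) := by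
      simp only [nb]
      push_cast
      rfl
    rw [h1, h6]
    have h7 : (∫ t in (0 : ℝ)..T0, h (f t x)) + (∫ t in (0 : ℝ)..(n * T0), h (f t (f T0 x))) - ((n + 1 : ℕ) : ℝ) * T0 * M =
        ((∫ t in (0 : ℝ)..T0, h (f t x)) - T0 * M) + ((∫ t in (0 : ℝ)..(n * T0), h (f t (f T0 x))) - n * T0 * M) := by push_cast; ring
    rw [h7]
    refine (abs_add_le _ _).trans ((add_le_add h4 h5).trans (le_of_eq ?_))
    push_cast
    ring

theorem LCN_proof : LCN_stmt := by
  intro S _ _ μ d f ε C hVL h M e T0 he hT0 hc hb hM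
  have hcx : ∀ z : S, Continuous (fun t : ℝ => h (f t z)) := fun z => hc.comp (hVL.fcn.comp (by fun_prop : Continuous (fun t : ℝ => (t, z))))
  refine ⟨?_, ?_⟩
  · intro n x hn hbad
    have h1 := LCN_ind hVL he hT0 hc hb hM n x
    have hn' : (0 : ℝ) < n := by exact_mod_cast hn
    have hnT : 0 < (n : ℝ) * T0 := by positivity
    have h2 : (∫ t in (0 : ℝ)..(n * T0), h (f t x)) - n * T0 * M = n * T0 * (av f h (n * T0) x - M) := by
      unfold av
      field_simp
    rw [h2, abs_mul, abs_of_pos hnT] at h1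
    have h3 : n * T0 * e ≤ T0 * (2 * (nb f h M e T0 n x : ℝ) + e / 2 * n) := (mul_le_mul_of_nonneg_left hbad hnT.le).trans h1
    have h4 : n * e ≤ 2 * (nb f h M e T0 n x : ℝ) + e / 2 * n := by
      have h5 : T0 * (n * e) ≤ T0 * (2 * (nb f h M e T0 n x : ℝ) + e / 2 * n) := by linarith
      exact le_of_mul_le_mul_left h5 hT0
    linarith
  · intro T T' x hT' hle
    have hT : 0 < T := lt_of_lt_of_le hT' hle
    have h1 : (∫ t in (0 : ℝ)..T, h (f t x)) = (∫ t in (0 : ℝ)..T', h (f t x)) + ∫ t in T'..T, h (f t x) :=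
      (intervalIntegral.integral_add_adjacent_intervals ((hcx x).intervalIntegrable _ _) ((hcx x).intervalIntegrable _ _)).symm
    have h2 : |∫ t in (0 : ℝ)..T', h (f t x)| ≤ T' := by
      have : ‖∫ t in (0 : ℝ)..T', h (f t x)‖ ≤ 1 * |T' - 0| := intervalIntegral.norm_integral_le_of_norm_le_const (fun t _ => by simpa using hb (f t x))
      rwa [Real.norm_eq_abs, sub_zero, abs_of_pos hT', one_mul] at this
    have h3 : |∫ t in T'..T, h (f t x)| ≤ T - T' := by
      have : ‖∫ t in T'..T, h (f t x)‖ ≤ 1 * |T - T'| := intervalIntegral.norm_integral_le_of_norm_le_const (fun t _ => by simpa using hb (f t x))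
      rwa [Real.norm_eq_abs, abs_of_nonneg (by linarith : (0 : ℝ) ≤ T - T'), one_mul] at this
    have h4 : av f h T x - av f h T' x = -((T'⁻¹ - T⁻¹) * ∫ t in (0 : ℝ)..T', h (f t x)) + T⁻¹ * ∫ t in T'..T, h (f t x) := by
      unfold av
      rw [h1]
      ring
    have h5 : 0 ≤ T'⁻¹ - T⁻¹ := by
      have := inv_anti₀ hT' hle
      linarith
    rw [h4]
    refine (abs_add_le _ _).trans ?_
    rw [abs_neg, abs_mul, abs_mul, abs_of_nonneg h5, abs_of_pos (inv_pos.mpr hT)]
    calc (T'⁻¹ - T⁻¹) * |∫ t in (0 : ℝ)..T', h (f t x)| + T⁻¹ * |∫ t in T'..T, h (f t x)| ≤ (T'⁻¹ - T⁻¹) * T' + T⁻¹ * (T - T') := by gcongr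
      _ = 2 * (T - T') / T := by
        field_simp
        ring

end Pool.Agent.VDL
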