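import Pool.Agent.helper93.VD.SpecB4b

set_option autoImplicit false

open MeasureTheory Filter Set Topology
open scoped ENNReal

namespace Pool.Agent.VDL

open Pool.Agent.VDE (BB av)
open Pool.Agent.VD (W Z)

theorem LDT_av {S : Type} [TopologicalSpace S] [MeasurableSpace S] {μ : Measure S} {d : S → S → ℝ} {f : ℝ → S → S} {ε C : ℝ} (hVL : VL μ d f ε C) {h : S → ℝ} {M e T0 v0 : ℝ} (hW : WK μ d f h M e ε T0 v0)
    {T r : ℝ} (hT : 0 < T) (hr : r ≤ 16 * ε) {x y : S} (hy : y ∈ BB d f T x r) : |av f h T x - av f h T y| ≤ e / 16 := by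
  have hcx : ∀ z : S, Continuous (fun t : ℝ => h (f t z)) := fun z => hW.hc.comp (hVL.fcn.comp (by fun_prop : Continuous (fun t : ℝ => (t, z))))
  have hi : ∀ z : S, IntervalIntegrable (fun t : ℝ => h (f t z)) volume 0 T := fun z => (hcx z).intervalIntegrable 0 T
  have h1 : av f h T x - av f h T y = T⁻¹ * ∫ t in (0 : ℝ)..T, (h (f t x) - h (f t y)) := by
    unfold av
    rw [intervalIntegral.integral_sub (hi x) (hi y)]
    ring
  have h2 : ‖∫ t in (0 : ℝ)..T, (h (f t x) - h (f t y))‖ ≤ e / 16 * |T - 0| := by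
    apply intervalIntegral.norm_integral_le_of_norm_le_const
    intro t ht
    rw [Set.uIoc_of_le hT.le] at ht
    have := hW.hu (f t x) (f t y) ((hy t ⟨ht.1.le, ht.2⟩).trans hr)
    simpa [Real.norm_eq_abs] using this
  rw [h1, abs_mul, abs_of_pos (inv_pos.mpr hT)]
  rw [Real.norm_eq_abs, sub_zero, abs_of_pos hT] at h2
  calc T⁻¹ * |∫ t in (0 : ℝ)..T, (h (f t x) - h (f t y))| ≤ T⁻¹ * (e / 16 * T) := by gcongr
    _ = e / 16 := by field_simp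

theorem LDT_proof (hLNT : LNT_stmt) (hLDS : LDS_stmt) (hLDV : LDV_stmt) : LDT_stmt := by
  intro m C e hC he he1
  obtain ⟨v0, hv0, H⟩ := hLDV C e hC he he1
  obtain ⟨K, hK, HS⟩ := hLDS m C hC
  have hexp1 : (1 : ℝ) ≤ Real.exp 1 := by
    have := Real.add_one_le_exp (1 : ℝ)
    linarith
  refine ⟨v0, C * K * C * Real.exp 1, hv0, ?_, ?_⟩
  · have h1 : (1 : ℝ) ≤ C * K := one_le_mul_of_one_le_of_one_le hC hK
    have h2 : (1 : ℝ) ≤ C * K * C := one_le_mul_of_one_le_of_one_le h1 hC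
    exact one_le_mul_of_one_le_of_one_le h2 hexp1
  intro S _ _ _ _ μ d f ε hVL h M T0 hW e1 a δ hD hd1 ρ T1 T2 hρ hρ1 hT1 hex hT2
  have hT2pos : 0 < T2 := lt_of_lt_of_le (by have := hW.hT; positivity) hT2
  obtain ⟨hnet, hcl⟩ := hLNT S (W m) μ d f ε C hVL
  obtain ⟨E, hEA, hEc, hEs, hEcov⟩ := hnet (T1 + T2) ε δ {w : W m | ‖w‖ ≤ ρ ∧ 3 * e ≤ |av f h T2 (f T1 (δ w)) - M|} hVL.ep
  have hcov : {w : W m | ‖w‖ ≤ ρ ∧ 3 * e ≤ |av f h T2 (f T1 (δ w)) - M|} ⊆ ⋃ θ ∈ E, {w : W m | ‖w‖ ≤ e1 ∧ δ w ∈ BB d f (T1 + T2) (δ θ) ε} := by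
    intro w hw
    obtain ⟨θ, hθ, hs⟩ := hEcov w hw
    refine Set.mem_iUnion₂.mpr ⟨θ, hθ, ?_, fun s hs' => hs s hs'⟩
    have := hw.1
    have hn := norm_nonneg w
    linarith
  have hβ : (0 : ℝ) ≤ C * Real.exp (1 - T2 / T0) := by positivity
  have hsum := HS S μ d f ε hVL e1 a δ hD ρ T1 T2 (C * Real.exp (1 - T2 / T0)) {y | 2 * e ≤ |av f h T2 y - M|} E hρ hρ1 hT1 hT2pos.le hex hβ
    (fun x => H S μ d f ε hVL h M T0 hW x T2 hT2) hEc (fun θ hθ => (hEA hθ).1) hEs (by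
      intro θ hθ y hy
      have h3 := (hEA hθ).2
      have h4 := LDT_av hVL hW hT2pos (by have := hVL.ep; linarith : ε / 16 ≤ 16 * ε) hy
      have h5 : |av f h T2 (f T1 (δ θ)) - M| ≤ |av f h T2 (f T1 (δ θ)) - av f h T2 y| + |av f h T2 y - M| := abs_sub_le _ _ _
      show 2 * e ≤ |av f h T2 y - M|
      linarith)
  calc volume {w : W m | ‖w‖ ≤ ρ ∧ 3 * e ≤ |av f h T2 (f T1 (δ w)) - M|}
      ≤ ∑' θ : E, volume {w : W m | ‖w‖ ≤ e1 ∧ δ w ∈ BB d f (T1 + T2) (δ θ) ε} := (measure_mono hcov).trans (measure_biUnion_le volume hEc _)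
    _ ≤ ∑' θ : E, ENNReal.ofReal C * μ (BB d f (T1 + T2) (δ θ) (16 * ε)) := ENNReal.tsum_le_tsum fun θ => hd1 θ (T1 + T2) ((hEA θ.2).1.trans hρ1) (by linarith)
    _ = ENNReal.ofReal C * ∑' θ : E, μ (BB d f (T1 + T2) (δ θ) (16 * ε)) := ENNReal.tsum_mul_left
    _ ≤ ENNReal.ofReal C * ENNReal.ofReal (K * ρ ^ m * (C * Real.exp (1 - T2 / T0))) := by gcongr
    _ = ENNReal.ofReal (C * K * C * Real.exp 1 * ρ ^ m * Real.exp (-(T2 / T0))) := by
        rw [← ENNReal.ofReal_mul (by linarith : (0 : ℝ) ≤ C), sub_eq_add_neg, Real.exp_add]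
        congr 1
        ring

end Pool.Agent.VDL
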