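import Pool.Agent.helper93.VD.SpecB4c
import Pool.Agent.helper62.VDE.IUD
import Pool.Agent.helper74.VD.SpecI

set_option autoImplicit false

open MeasureTheory Filter Set Topology
open scoped ENNReal

namespace Pool.Agent.VDL

open Pool.Agent.VD
open Pool.Agent.VQ (CH qZ)
open Pool.Agent.VDE (BB av FlD UWLD mnV avV liou FDX dir Dis)
open Pool.Agent.VDG (muS GeU)

theorem LI7_dis {Γ : Type} {d : ℕ} [Group Γ] [MulAction Γ (V d)] {K : Set (V d)} {G : V d → V d →L[ℝ] V d} {C C' : ℝ} {dd : P d → P d → ℝ} (h : Dis Γ K G C dd) (hC : C ≤ C') : Dis Γ K G C' dd where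
  cont := h.cont
  nn := h.nn
  zero := h.zero
  symm := h.symm
  tri := h.tri
  inv := h.inv
  lo := fun p q a b c e => (h.lo p q a b c e).trans (mul_le_mul_of_nonneg_right hC (h.nn p q))
  up := fun p q a b c e => (h.up p q a b c e).trans (mul_le_mul_of_nonneg_right hC (norm_nonneg _))

theorem LI7_fld {Γ : Type} {d : ℕ} [Group Γ] [MulAction Γ (V d)] {K F0 : Set (V d)} {G : V d → V d →L[ℝ] V d} {Φ : ℝ → P d → P d} {C C' : ℝ} {dd : P d → P d → ℝ} (h : FlD Γ K F0 G Φ C dd) (hC : C ≤ C') : FlD Γ K F0 G Φ C' dd :=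
  { h with dis := LI7_dis h.dis hC }

theorem LI7_geu {Γ : Type} {d : ℕ} [Group Γ] [MulAction Γ (V d)] {K F0 : Set (V d)} {G : V d → V d →L[ℝ] V d} {Φ : ℝ → P d → P d} {r1 C C' : ℝ} {dd : P d → P d → ℝ} (h : GeU Γ K F0 G Φ r1 C dd) (hC : C ≤ C') : GeU Γ K F0 G Φ r1 C' dd where
  fld := LI7_fld h.fld hC
  hr := h.hr
  hC := h.hC.trans hC
  tt := fun p t a b => (h.tt p t a b).trans (mul_le_mul_of_nonneg_right hC (abs_nonneg _))
  lp := fun p q t a b c => (h.lp p q t a b c).trans (mul_le_mul_of_nonneg_right hC (h.fld.dis.nn p q))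
  nlo := fun p q a b c e f => (h.nlo p q a b c e f).trans (mul_le_mul_of_nonneg_right hC (h.fld.dis.nn p q))
  nup := fun p q a b c e f => (h.nup p q a b c e f).trans (mul_le_mul_of_nonneg_right hC (norm_nonneg _))
  nno := fun p a => (h.nno p a).trans (mul_le_mul_of_nonneg_right hC (Real.sqrt_nonneg _))
  nnl := fun p q a b c e f g => (h.nnl p q a b c e f g).trans (mul_le_mul_of_nonneg_right hC (norm_nonneg _))

theorem LI7_cont {d : ℕ} {G : V d → V d →L[ℝ] V d} {Φ : ℝ → P d → P d} (hΦ : IsFlow G Φ) {h : V d → ℝ} (hh : Continuous h) (t : ℝ) : Continuous (fun p : P d => avP Φ h t p) := by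
  unfold avP
  refine continuous_const.mul ?_
  apply intervalIntegral.continuous_parametric_intervalIntegral_of_continuous'
  have h1 : Continuous (fun q : ℝ × P d => Φ q.1 q.2) := hΦ.smooth.continuous
  have h2 : Continuous (fun q : P d × ℝ => Φ q.2 q.1) := h1.comp (by fun_prop : Continuous (fun q : P d × ℝ => ((q.2, q.1) : ℝ × P d)))
  exact hh.comp (continuous_fst.comp h2)

theorem LI7_inv {Γ : Type} {d : ℕ} [Group Γ] [MulAction Γ (V d)] {Φ : ℝ → P d → P d} (fe : ∀ (γ : Γ) (t : ℝ) (p : P d), Φ t (lft γ p) = lft γ (Φ t p)) {h : V d → ℝ} (hi : ∀ (γ : Γ) (x : V d), h (γ • x) = h x) (t : ℝ) (γ : Γ) (p : P d) :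
    avP Φ h t (lft γ p) = avP Φ h t p := by
  unfold avP
  congr 1
  apply intervalIntegral.integral_congr
  intro s _
  show h (Φ s (lft γ p)).1 = h (Φ s p).1
  rw [fe]
  exact hi γ _

theorem LI7_scale {Γ : Type} {d : ℕ} [Group Γ] [MulAction Γ (V d)] {K F0 : Set (V d)} {G : V d → V d →L[ℝ] V d} {Φ : ℝ → P d → P d} {C : ℝ} {dd : P d → P d → ℝ} (hF : FlD Γ K F0 G Φ C dd) (h : V d → ℝ) {t l : ℝ} (hl : 0 < l) (q : P d) :
    avP Φ h t (scl l q) = avV Φ h (l * t) q := by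
  unfold avP avV
  have h1 : ∀ s : ℝ, h (Φ s (scl l q)).1 = (fun u => h (Φ u q).1) (l * s) := by
    intro s
    show h (Φ s (q.1, l • q.2)).1 = h (Φ (l * s) q).1
    rw [hF.fs s l q hl]
  have h2 : (∫ s in (0 : ℝ)..t, h (Φ s (scl l q)).1) = ∫ s in (0 : ℝ)..t, (fun u => h (Φ u q).1) (l * s) := intervalIntegral.integral_congr (fun s _ => h1 s)
  rw [h2, intervalIntegral.integral_comp_mul_left (fun u => h (Φ u q).1) hl.ne', mul_zero, smul_eq_mul, mul_inv]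
  ring

theorem LI7_avP01 {d : ℕ} {Φ : ℝ → P d → P d} {G : V d → V d →L[ℝ] V d} (hΦ : IsFlow G Φ) {h : V d → ℝ} (hc : Continuous h) (hb : ∀ x, 0 ≤ h x ∧ h x ≤ 1) {t : ℝ} (ht : 0 < t) (p : P d) : 0 ≤ avP Φ h t p ∧ avP Φ h t p ≤ 1 := by
  have hcx : Continuous (fun s : ℝ => h (Φ s p).1) := hc.comp (continuous_fst.comp (hΦ.smooth.continuous.comp (by fun_prop : Continuous (fun s : ℝ => ((s, p) : ℝ × P d)))))
  have h1 : (0 : ℝ) ≤ ∫ s in (0 : ℝ)..t, h (Φ s p).1 := intervalIntegral.integral_nonneg ht.le (fun s _ => (hb _).1)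
  have h2 : (∫ s in (0 : ℝ)..t, h (Φ s p).1) ≤ ∫ s in (0 : ℝ)..t, (1 : ℝ) := intervalIntegral.integral_mono_on ht.le (hcx.intervalIntegrable _ _) intervalIntegrable_const (fun s _ => (hb _).2)
  rw [intervalIntegral.integral_const, sub_zero, smul_eq_mul, mul_one] at h2
  unfold avP
  refine ⟨mul_nonneg (inv_nonneg.mpr ht.le) h1, ?_⟩
  calc t⁻¹ * ∫ s in (0 : ℝ)..t, h (Φ s p).1 ≤ t⁻¹ * t := by gcongr
    _ = 1 := by field_simp

theorem LI7_qZ0 {Y : Type} [MeasurableSpace Y] (m : Measure Y) (M : Y → Y → ENNReal) : ∀ (n : ℕ), qZ m M n (fun _ => 0) = fun _ => 0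
  | 0 => rfl
  | n + 1 => by
      funext x
      show ∫⁻ y, M x y ^ 2 * qZ m M n (fun _ => 0) y ∂m = 0
      rw [LI7_qZ0 m M n]
      simp

theorem LI7_mean {Γ : Type} {d : ℕ} [Group Γ] [MulAction Γ (V d)] {K F0 : Set (V d)} {k : ℝ} {B : ℕ → ℕ → ℝ} {G : V d → V d →L[ℝ] V d} (hAMVI : AMVI_stmt) (hK : FdK Γ K) (hG : Cls Γ K k B G) (hF0 : FDX Γ K F0) {h : V d → ℝ} :
    mean G F0 h = mnV F0 G h := by
  obtain ⟨-, -, hpos, -, hfin, -, -, hint, -⟩ := hAMVI d Γ K k B G hK hG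
  have h1 : (∫ x in F0, h x ∂mv G) = ∫ x in F0, h x * dens G x := by
    rw [← integral_indicator hF0.meas, hint, ← integral_indicator hF0.meas]
    apply integral_congr_ae
    filter_upwards with x
    by_cases hx : x ∈ F0
    · simp only [Set.indicator_of_mem hx, smul_eq_mul]
      ring
    · simp only [Set.indicator_of_notMem hx, smul_zero]
  have h2 : (mv G F0).toReal = ∫ x in F0, dens G x := by
    have h3 : (∫ x in F0, (1 : ℝ) ∂mv G) = ∫ x in F0, dens G x := by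
      rw [← integral_indicator hF0.meas, hint, ← integral_indicator hF0.meas]
      apply integral_congr_ae
      filter_upwards with x
      by_cases hx : x ∈ F0
      · simp only [Set.indicator_of_mem hx, smul_eq_mul, mul_one]
      · simp only [Set.indicator_of_notMem hx, smul_zero]
    rw [← h3]
    simp [Measure.real]
  unfold mean mnV
  rw [h1, h2]

theorem LI7_nrm {d : ℕ} {G : V d → V d →L[ℝ] V d} {p : P d} {δ : ℝ} (hE : |Ep G p| ≤ δ) (hδ : δ ≤ 7 / 32) : 3 / 4 ≤ nrm G p ∧ nrm G p ≤ 5 / 4 := by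
  have h1 := abs_le.mp hE
  unfold Ep Ham at h1
  have h2 : 9 / 16 ≤ inner ℝ (IG G p.1 p.2) p.2 := by linarith [h1.1]
  have h3 : inner ℝ (IG G p.1 p.2) p.2 ≤ 25 / 16 := by linarith [h1.2]
  unfold nrm
  refine ⟨Real.le_sqrt_of_sq_le (by linarith), ?_⟩
  calc Real.sqrt (inner ℝ (IG G p.1 p.2) p.2) ≤ Real.sqrt ((5 / 4) ^ 2) := Real.sqrt_le_sqrt (by linarith)
    _ = 5 / 4 := Real.sqrt_sq (by norm_num)

/-- the final numerical inequality -/
theorem LI7_num {R K1 T0 e2 x T2 : ℝ} {m b : ℕ} (hR : 1 ≤ R) (hK1 : 0 ≤ K1) (hT0 : 0 < T0) (he2 : 0 < e2) (h3 : x ≤ e2 / (4 * T0))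
    (hT2 : 3 / 4 * (e2 * Real.log R) ≤ T2) (hbig : K1 * (2 * Real.pi) ^ ((m + 1) * b) ≤ R ^ (e2 / (4 * T0))) :
    R ^ (((m : ℝ) + 1) * b + x) * (K1 * Real.exp (-(T2 / T0))) ≤ R ^ (-(e2 / (4 * T0))) * ((R / (2 * Real.pi)) ^ (m + 1)) ^ b := by
  have hR0 : 0 < R := by linarith
  have hlog : 0 ≤ Real.log R := Real.log_nonneg hR
  have hb0 : (0 : ℝ) ≤ b := Nat.cast_nonneg b
  have h1 : Real.exp (-(T2 / T0)) ≤ R ^ (-(3 * e2 / (4 * T0))) := by
    rw [Real.rpow_def_of_pos hR0]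
    apply Real.exp_le_exp.mpr
    have : 3 / 4 * (e2 * Real.log R) / T0 ≤ T2 / T0 := by gcongr
    have h2 : Real.log R * -(3 * e2 / (4 * T0)) = -(3 / 4 * (e2 * Real.log R) / T0) := by ring
    rw [h2]
    linarith
  have hpi : (0 : ℝ) < (2 * Real.pi) ^ ((m + 1) * b) := by positivity
  have h4 : ((R / (2 * Real.pi)) ^ (m + 1)) ^ b = R ^ (((m : ℝ) + 1) * b) / (2 * Real.pi) ^ ((m + 1) * b) := by
    rw [← pow_mul, div_pow]
    congr 1
    rw [← Real.rpow_natCast]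
    push_cast
    rfl
  rw [h4, Real.rpow_add hR0]
  have h5 : R ^ x ≤ R ^ (e2 / (4 * T0)) := Real.rpow_le_rpow_of_exponent_le hR h3
  have hRp : 0 < R ^ (((m : ℝ) + 1) * b) := Real.rpow_pos_of_pos hR0 _
  have h6 : R ^ (e2 / (4 * T0)) * (K1 * R ^ (-(3 * e2 / (4 * T0)))) * (2 * Real.pi) ^ ((m + 1) * b) ≤ R ^ (-(e2 / (4 * T0))) := by
    calc R ^ (e2 / (4 * T0)) * (K1 * R ^ (-(3 * e2 / (4 * T0)))) * (2 * Real.pi) ^ ((m + 1) * b)
        = R ^ (e2 / (4 * T0)) * R ^ (-(3 * e2 / (4 * T0))) * (K1 * (2 * Real.pi) ^ ((m + 1) * b)) := by ring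
      _ ≤ R ^ (e2 / (4 * T0)) * R ^ (-(3 * e2 / (4 * T0))) * R ^ (e2 / (4 * T0)) := by gcongr
      _ = R ^ (-(e2 / (4 * T0))) := by
        rw [← Real.rpow_add hR0, ← Real.rpow_add hR0]
        congr 1
        field_simp
        ring
  calc R ^ (((m : ℝ) + 1) * b) * R ^ x * (K1 * Real.exp (-(T2 / T0)))
      ≤ R ^ (((m : ℝ) + 1) * b) * R ^ (e2 / (4 * T0)) * (K1 * R ^ (-(3 * e2 / (4 * T0)))) := by gcongr
    _ = R ^ (((m : ℝ) + 1) * b) / (2 * Real.pi) ^ ((m + 1) * b) * (R ^ (e2 / (4 * T0)) * (K1 * R ^ (-(3 * e2 / (4 * T0)))) * (2 * Real.pi) ^ ((m + 1) * b)) := by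
        field_simp
    _ ≤ R ^ (((m : ℝ) + 1) * b) / (2 * Real.pi) ^ ((m + 1) * b) * R ^ (-(e2 / (4 * T0))) := by gcongr
    _ = R ^ (-(e2 / (4 * T0))) * (R ^ (((m : ℝ) + 1) * b) / (2 * Real.pi) ^ ((m + 1) * b)) := by ring

theorem LI7_ev (Cf e3 K1 T0 e2 e' : ℝ) (N : ℕ) (he3 : 0 < e3) (hT0 : 0 < T0) (he2 : 0 < e2) : ∃ R1 : ℝ, 1 ≤ R1 ∧ ∀ R : ℝ, R1 ≤ R → 5 / 4 * R ^ (-(1 / 4) : ℝ) ≤ 7 / 32 ∧ R ^ (-(1 / 4) : ℝ) ≤ e3 / 2 ∧ Cf ≤ R ∧
    4 * T0 / e' ≤ 3 / 4 * (e2 * Real.log R) ∧ K1 * (2 * Real.pi) ^ N ≤ R ^ (e2 / (4 * T0)) := by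
  have ht : Tendsto (fun R : ℝ => R ^ (-(1 / 4) : ℝ)) atTop (𝓝 0) := tendsto_rpow_neg_atTop (by norm_num)
  have h1 : ∀ᶠ R : ℝ in atTop, R ^ (-(1 / 4) : ℝ) ≤ 7 / 40 := ht.eventually (ge_mem_nhds (by norm_num))
  have h2 : ∀ᶠ R : ℝ in atTop, R ^ (-(1 / 4) : ℝ) ≤ e3 / 2 := ht.eventually (ge_mem_nhds (by positivity))
  have h3 : ∀ᶠ R : ℝ in atTop, Cf ≤ R := eventually_ge_atTop Cf
  have hl : Tendsto (fun R : ℝ => 3 / 4 * (e2 * Real.log R)) atTop atTop := (Real.tendsto_log_atTop.const_mul_atTop he2).const_mul_atTop (by norm_num)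
  have h4 := hl.eventually (eventually_ge_atTop (4 * T0 / e'))
  have h5 := (tendsto_rpow_atTop (by positivity : 0 < e2 / (4 * T0))).eventually (eventually_ge_atTop (K1 * (2 * Real.pi) ^ N))
  obtain ⟨R1, hR1⟩ := (((h1.and h2).and h3).and (h4.and h5)).exists_forall_of_atTop
  refine ⟨max R1 1, le_max_right _ _, fun R hR => ?_⟩
  obtain ⟨⟨⟨a, b⟩, c⟩, e, f⟩ := hR1 R ((le_max_left _ _).trans hR)
  exact ⟨by linarith, b, c, e, f⟩

theorem LI7_proof (hDOB : DOB_stmt) (hSCL : SCL_stmt) (hGUE : VDG.GUE_stmt) (hFLD : VDE.FLD_stmt) (hGJF : VDG.GJF_stmt) (hLWK : LWK_stmt) (hLDT : LDT_stmt) (hLVV : LVV_stmt) (hDCT : DCT_stmt) (hAMVI : AMVI_stmt) : LI7_stmt := by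
  intro d Γ _ _ K F0 r0 χ ch k B hd hK hF0 hPU hCH
  obtain ⟨m, rfl⟩ : ∃ m, d = m + 1 := ⟨d - 1, by omega⟩
  have hm : 1 ≤ m := by omega
  obtain ⟨η, hη⟩ := hDCT (m + 1) K hK.compact
  obtain ⟨r1, Cg, hr1, hCg, hGU⟩ := hGUE (m + 1) Γ K k B η hK hη (hFLD (m + 1) Γ K k B η hK hη)
  obtain ⟨c, C', e0, e1, hc, hCC', hC'1, he0, he1, hκ⟩ := hSCL m Γ K k B η Cg hK hη
  obtain ⟨ε0, e3, ν, Cf, hε0, he3, he31, hν, hCf, hJ⟩ := hGJF m r1 c C' e0 e1 hr1 hc hC'1 he0 he1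
  obtain ⟨CD, hCD1, hD⟩ := hDOB m Γ K r0 χ ch η k B c C' e0 e1 hm hK hPU hCH hη hc hC'1 he0 he1
  obtain ⟨CV, hCV1, hV⟩ := hLVV (m + 1) Γ K k B η hK hη
  set C : ℝ := 4 * max CD CV with hCdef
  have hmax1 : 1 ≤ max CD CV := hCD1.trans (le_max_left _ _)
  have hC1 : 1 ≤ C := by linarith
  have hCDC : 4 * CD ≤ C := by have := le_max_left CD CV; linarith
  have hCVC : CV ≤ C := by have := le_max_right CD CV; linarith
  refine ⟨C, 2 / ν, hC1, by positivity, ?_⟩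
  intro h e hTD he
  have hhc : Continuous h := hTD.smooth.continuous
  have hinv : ∀ (γ : Γ) (x : V (m + 1)), h (γ • x) = h x := hTD.inv
  rcases le_or_gt e 1 with he1' | he1'
  swap
  · -- trivial case
    refine ⟨1, one_pos, ?_⟩
    intro T0 e2 hT0 he2 _ _
    refine ⟨1, 1, one_pos, one_pos, ?_⟩
    intro A hA hA2 hz
    refine ⟨1, le_refl 1, ?_⟩
    intro R G Φ b hR hG hΦ _ _ _ y hy
    have hempty : BadP Γ G Φ F0 h e (A.tu R) = ∅ := by
      rw [Set.eq_empty_iff_forall_notMem]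
      intro z hz'
      have htu : 0 < A.tu R := by unfold Par.tu; positivity
      have h1 := LI7_avP01 (G := G) hΦ hhc hTD.bd htu z.2
      have h2 : 0 ≤ mean G F0 h ∧ mean G F0 h ≤ 1 := by
        rw [LI7_mean hAMVI hK hG hF0]
        obtain ⟨-, hds, hpos, -, hfin, -, -, hint, -⟩ := hAMVI (m + 1) Γ K k B G hK hG
        have hdc : Continuous (dens G) := hds.continuous
        have hi1 : IntegrableOn (dens G) F0 := (hdc.continuousOn.integrableOn_compact hK.compact).mono_set hF0.sub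
        have hi2 : IntegrableOn (fun x => h x * dens G x) F0 := ((hhc.mul hdc).continuousOn.integrableOn_compact hK.compact).mono_set hF0.sub
        have h3 : 0 ≤ ∫ x in F0, h x * dens G x := integral_nonneg (fun x => mul_nonneg (hTD.bd x).1 (hpos x).le)
        have h4 : (∫ x in F0, h x * dens G x) ≤ ∫ x in F0, dens G x := integral_mono hi2 hi1 (fun x => by have := hTD.bd x; have := hpos x; nlinarith)
        unfold mnV
        exact ⟨div_nonneg h3 (h3.trans h4), div_le_one_of_le₀ h4 (h3.trans h4)⟩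
      have h3 : e ≤ |avP Φ h (A.tu R) z.2 - mean G F0 h| := hz'
      have h4 : |avP Φ h (A.tu R) z.2 - mean G F0 h| ≤ 1 := abs_le.mpr ⟨by linarith [h1.1, h2.2], by linarith [h1.2, h2.1]⟩
      linarith
    rw [hempty, Set.indicator_empty, LI7_qZ0]
    exact zero_le
  -- main case
  have he' : 0 < e / 6 := by positivity
  obtain ⟨ε1, n0, hε1, hn0, hW⟩ := hLWK (m + 1) Γ K C' h (e / 6) (by omega) hhc hinv hTD.bd he'
  set ε : ℝ := min ε0 ε1 with hεdef
  have hε : 0 < ε := lt_min hε0 hε1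
  obtain ⟨v1, K1, hv1, hK1, hL⟩ := hLDT m (Cf ε) (e / 6) (hCf ε) he' (by linarith)
  have hn0' : (0 : ℝ) < n0 := by exact_mod_cast hn0
  refine ⟨v1 / n0, by positivity, ?_⟩
  intro T0 e2 hT0 he2 he2C he2cb
  have hT0' : 0 < T0 := by linarith
  refine ⟨e2 / (4 * T0), min (e2 ^ 2 / (16 * C * (2 / ν) * T0)) (e2 / (16 * ((m : ℝ) + 1) * C * T0)), by positivity, lt_min (by positivity) (by positivity), ?_⟩
  intro A hA hAe2 hAz
  have hz2 : 0 < A.z2 := by
    have h1 : 0 < C * A.z := mul_pos (by linarith) hA.z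
    have h2 : 0 < A.z1 := lt_of_lt_of_le h1 hA.z1
    have h3 : 0 < C * A.z1 := mul_pos (by linarith) h2
    exact lt_of_lt_of_le h3 hA.z2
  have hAD : Adm CD A := by
    have hle : CD ≤ C := by linarith
    have hz1 : 0 < A.z1 := lt_of_lt_of_le (mul_pos (by linarith) hA.z) hA.z1
    exact { e2 := hA.e2, e2' := (mul_le_mul_of_nonneg_right hle hA.e2.le).trans hA.e2', z := hA.z, z1 := (mul_le_mul_of_nonneg_right hle hA.z.le).trans hA.z1, z2 := (mul_le_mul_of_nonneg_right hle hz1.le).trans hA.z2, up := (mul_le_mul_of_nonneg_right hle hz2.le).trans hA.up }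
  have hzq : CD * A.z2 ≤ 1 / 4 := by
    have h1 := hA.up
    nlinarith [mul_le_mul_of_nonneg_right hCDC hz2.le]
  have hRb : ∀ b : ℕ, ∃ R0 : ℝ, 1 ≤ R0 ∧ (1 ≤ b → ∀ (R : ℝ) (G : V (m + 1) → V (m + 1) →L[ℝ] V (m + 1)) (Φ : ℝ → P (m + 1) → P (m + 1)) (κ : P (m + 1) → Z m → P (m + 1)), R0 ≤ R → Cls Γ K k B G → IsFlow G Φ →
      SEC c C' e0 e1 {p | nrm G p = 1} (dP Γ η) Φ κ → ∀ (V0 V1 : P (m + 1) → ENNReal), Measurable V0 → Measurable V1 → (∀ (γ : Γ) (q : P (m + 1)), V1 (lft γ q) = V1 q) →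
      (∀ q q' : P (m + 1), 1 / 2 ≤ nrm G q → nrm G q ≤ 3 / 2 → 1 / 2 ≤ nrm G q' → nrm G q' ≤ 3 / 2 → dP Γ η q q' ≤ R ^ (-(1 / 3) : ℝ) → V0 q ≤ V1 q') →
      ∀ y : YS Γ (m + 1), y ∈ GW Γ G r0 (5 / 4) R → qZ (mW Γ G r0 R) (fun x y => ‖ub G Φ r0 χ ch A R x y‖ₑ) b (fun y => V0 y.2) y ≤
        ENNReal.ofReal (R ^ (((m : ℝ) + 1) * b + (m : ℝ) / 2 + CD * b * A.z2)) *
          ∫⁻ w in Metric.closedBall (0 : W m) (R ^ (-(1 / 2) + CD * A.z2)), V1 (scl (nrm G y.2) (Φ (nrm G y.2 * (b * A.tu R)) (κ (dir G y.2) (0, w))))) := by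
    intro b
    by_cases hb : 1 ≤ b
    · obtain ⟨R0, h1, h2⟩ := hD A b hAD hb
      exact ⟨R0, h1, fun _ => h2⟩
    · exact ⟨1, le_refl 1, fun h => absurd h hb⟩
  choose Rf hRf1 hRf2 using hRb
  obtain ⟨RV, hRV1, hRV⟩ := hV h (e / 2) e2 hhc hinv hTD.bd (by positivity) he2 (by
    have := hA.e2'
    rw [hAe2] at this
    exact (mul_le_mul_of_nonneg_right hCVC he2.le).trans this)
  set bm : ℕ := ⌊2 * (2 / ν) / e2⌋₊ with hbm
  obtain ⟨R1, hR11, hR1⟩ := LI7_ev (Cf ε) e3 K1 T0 e2 (e / 6) ((m + 1) * bm) he3 hT0' he2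
  refine ⟨max (max RV R1) (max 3 (∑ b ∈ Finset.range (bm + 1), Rf b)), ?_, ?_⟩
  · exact le_trans (le_trans (by norm_num) (le_max_left (3 : ℝ) _)) (le_max_right _ _)
  intro R G Φ b hR hG hΦ hUW hb1 hb2 y hy
  have hRRV : RV ≤ R := ((le_max_left _ _).trans (le_max_left _ _)).trans hR
  have hRR1 : R1 ≤ R := ((le_max_right _ _).trans (le_max_left _ _)).trans hR
  have hR3 : 3 ≤ R := ((le_max_left _ _).trans (le_max_right _ _)).trans hR
  have hRS : (∑ b ∈ Finset.range (bm + 1), Rf b) ≤ R := ((le_max_right _ _).trans (le_max_right _ _)).trans hR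
  have hR0 : 0 < R := by linarith
  have hR1' : 1 ≤ R := by linarith
  obtain ⟨ha, hb', hcf, hT2', hbig⟩ := hR1 R hRR1
  have hlog : 1 ≤ Real.log R := by
    rw [Real.le_log_iff_exp_le hR0]
    have := Real.exp_one_lt_d9
    linarith
  have hτ : e2 * Real.log R ≤ A.tu R := by
    unfold Par.tu Par.n
    rw [hAe2]
    exact (Nat.lt_floor_add_one _).le
  have hτ2 : A.tu R ≤ e2 * Real.log R + 1 := by
    unfold Par.tu Par.n
    rw [hAe2]
    have := Nat.floor_le (by positivity : 0 ≤ e2 * Real.log R)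
    linarith
  have hτpos : 0 < A.tu R := lt_of_lt_of_le (by positivity) hτ
  -- the number of blocks
  have hbpos : 1 ≤ b := by
    by_contra hcon
    have hb0 : b = 0 := by omega
    rw [hb0] at hb1
    have : 0 < 2 / ν * Real.log R := by positivity
    simp at hb1
    linarith
  have hble : (b : ℝ) ≤ 2 * (2 / ν) / e2 := by
    rw [le_div_iff₀ he2]
    have h1 : (b : ℝ) * (e2 * Real.log R) ≤ 2 * (2 / ν) * Real.log R := (mul_le_mul_of_nonneg_left hτ (Nat.cast_nonneg b)).trans hb2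
    have h2 : (b * e2) * Real.log R ≤ 2 * (2 / ν) * Real.log R := by linarith
    exact le_of_mul_le_mul_right h2 (by linarith)
  have hbbm : b ≤ bm := Nat.le_floor hble
  have hRb : Rf b ≤ R := by
    refine le_trans ?_ hRS
    exact Finset.single_le_sum (f := Rf) (fun i _ => by have := hRf1 i; linarith) (Finset.mem_range.mpr (by omega))
  -- sections
  obtain ⟨κ, hκ'⟩ := hκ G Φ hG hΦ
  have hGe := LI7_geu (hGU F0 G Φ hF0 hG hΦ) hCC'
  obtain ⟨f, κ', hf, hkk, hVD⟩ := hJ Γ K F0 G Φ (dP Γ η) κ hGe hκ'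
  have hM : mean G F0 h = mnV F0 G h := LI7_mean hAMVI hK hG hF0
  set M : ℝ := mnV F0 G h with hMdef
  have hnr := LI7_nrm (G := G) hy.2 ha
  set lam : ℝ := nrm G y.2 with hlam
  have hlam0 : 0 < lam := by linarith [hnr.1]
  have hdir : nrm G (dir G y.2) = 1 := by
    have h1 : nrm G (dir G y.2) = Real.sqrt (inner ℝ (IG G y.2.1 ((nrm G y.2)⁻¹ • y.2.2)) ((nrm G y.2)⁻¹ • y.2.2)) := rfl
    have h2 : nrm G y.2 = Real.sqrt (inner ℝ (IG G y.2.1 y.2.2) y.2.2) := rfl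
    have h3 : 0 ≤ inner ℝ (IG G y.2.1 y.2.2) y.2.2 := by
      by_contra hcon
      push Not at hcon
      rw [Real.sqrt_eq_zero_of_nonpos hcon.le] at h2
      rw [← hlam] at h2
      linarith
    rw [h1, map_smul, inner_smul_left, inner_smul_right]
    simp only [conj_trivial]
    rw [← hlam]
    have h4 : lam ^ 2 = inner ℝ (IG G y.2.1 y.2.2) y.2.2 := by rw [hlam, h2, Real.sq_sqrt h3]
    rw [← h4]
    have h5 : lam⁻¹ * (lam⁻¹ * lam ^ 2) = 1 := by field_simp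
    rw [h5, Real.sqrt_one]
  set z : VDG.Shl G := ⟨dir G y.2, hdir⟩ with hzdef
  obtain ⟨hVL, hDz⟩ := hVD ε hε (min_le_left _ _)
  obtain ⟨hDSK, hD1⟩ := hDz z
  -- the weak law
  have hFl : FlD Γ K F0 G Φ C' (dP Γ η) := hGe.fld
  have hUW' : UWLD F0 G Φ h (e / 6 / 8) (v1 / n0) T0 := by
    refine le_trans (measure_mono ?_) hUW
    intro p hp
    refine ⟨hp.1, ?_⟩
    have := hp.2
    have h2 : e / 100 ≤ e / 6 / 8 := by linarith
    exact h2.trans this
  have hWK := hW F0 G Φ (dP Γ η) hFl f hf ε T0 (v1 / n0) hε (min_le_right _ _) hT0' (by positivity) hUW'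
  have hv : (n0 : ℝ) * (v1 / n0) = v1 := by field_simp
  rw [hv] at hWK
  -- the radius
  set ρ : ℝ := R ^ (-(1 / 2) + CD * A.z2) with hρ
  have hρ0 : 0 < ρ := Real.rpow_pos_of_pos hR0 _
  have hρ1 : ρ ≤ e3 / 2 := (Real.rpow_le_rpow_of_exponent_le hR1' (by linarith)).trans hb'
  have hρ2 : R ^ (-(1 / 2) : ℝ) ≤ ρ := Real.rpow_le_rpow_of_exponent_le hR1' (by have : 0 < CD * A.z2 := mul_pos (by linarith) hz2; linarith)
  -- times
  have hT1 : 0 ≤ lam * (b * A.tu R) := by positivity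
  have hexp : Cf ε * Real.exp (-(ν * (lam * (b * A.tu R)))) ≤ ρ := by
    have h1 : 3 / 4 * (2 / ν * Real.log R) ≤ lam * (b * A.tu R) := by
      apply mul_le_mul hnr.1 hb1 (by positivity) hlam0.le
    have h2 : 3 / 2 * Real.log R ≤ ν * (lam * (b * A.tu R)) := by
      calc 3 / 2 * Real.log R = ν * (3 / 4 * (2 / ν * Real.log R)) := by
            field_simp
            ring
        _ ≤ ν * (lam * (b * A.tu R)) := mul_le_mul_of_nonneg_left h1 hν.le
    have h3 : Real.exp (-(ν * (lam * (b * A.tu R)))) ≤ R ^ (-(3 / 2) : ℝ) := by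
      rw [Real.rpow_def_of_pos hR0]
      apply Real.exp_le_exp.mpr
      linarith
    calc Cf ε * Real.exp (-(ν * (lam * (b * A.tu R)))) ≤ R * R ^ (-(3 / 2) : ℝ) := by
          apply mul_le_mul hcf h3 (Real.exp_pos _).le hR0.le
      _ = R ^ (-(1 / 2) : ℝ) := by
        nth_rewrite 1 [← Real.rpow_one R]
        rw [← Real.rpow_add hR0]
        norm_num
      _ ≤ ρ := hρ2
  have hT2a : 3 / 4 * (e2 * Real.log R) ≤ lam * A.tu R := mul_le_mul hnr.1 hτ (by positivity) hlam0.le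
  have hT2 : 4 * T0 / (e / 6) ≤ lam * A.tu R := hT2'.trans hT2a
  have hLD := hL (VDG.Shl G) (muS G) (fun x y => dP Γ η x.1 y.1) f ε hVL (fun x => h x.1.1) M T0 hWK e3 ν (fun w => κ' z (0, w)) hDSK hD1 ρ (lam * (b * A.tu R)) (lam * A.tu R) hρ0 hρ1 hT1 hexp hT2
  -- the test functions
  have hct : Continuous (fun p : P (m + 1) => avP Φ h (A.tu R) p) := LI7_cont (G := G) hΦ hhc _
  have hS0 : MeasurableSet {q : P (m + 1) | e ≤ |avP Φ h (A.tu R) q - M|} := (isClosed_le continuous_const (hct.sub continuous_const).abs).measurableSet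
  have hS1 : MeasurableSet {q : P (m + 1) | e / 2 ≤ |avP Φ h (A.tu R) q - M|} := (isClosed_le continuous_const (hct.sub continuous_const).abs).measurableSet
  have hmain := hRf2 b hbpos R G Φ κ hRb hG hΦ hκ' ({q : P (m + 1) | e ≤ |avP Φ h (A.tu R) q - M|}.indicator (fun _ => 1)) ({q : P (m + 1) | e / 2 ≤ |avP Φ h (A.tu R) q - M|}.indicator (fun _ => 1))
    (measurable_const.indicator hS0) (measurable_const.indicator hS1) (by
      intro γ q
      have h1 : (lft γ q ∈ {q : P (m + 1) | e / 2 ≤ |avP Φ h (A.tu R) q - M|}) ↔ (q ∈ {q : P (m + 1) | e / 2 ≤ |avP Φ h (A.tu R) q - M|}) := by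
        show e / 2 ≤ |avP Φ h (A.tu R) (lft γ q) - M| ↔ e / 2 ≤ |avP Φ h (A.tu R) q - M|
        rw [LI7_inv hFl.fe hinv]
      by_cases h2 : q ∈ {q : P (m + 1) | e / 2 ≤ |avP Φ h (A.tu R) q - M|}
      · rw [Set.indicator_of_mem h2, Set.indicator_of_mem (h1.mpr h2)]
      · rw [Set.indicator_of_notMem h2, Set.indicator_of_notMem (fun h3 => h2 (h1.mp h3))]) (by
      intro q q' _ hq2 _ hq2' hdq
      by_cases h2 : q ∈ {q : P (m + 1) | e ≤ |avP Φ h (A.tu R) q - M|}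
      · have h3 := hRV R G Φ hRRV hG hΦ q q' hq2 hq2' hdq (A.tu R) hτpos hτ2
        have h4 : q' ∈ {q : P (m + 1) | e / 2 ≤ |avP Φ h (A.tu R) q - M|} := by
          show e / 2 ≤ |avP Φ h (A.tu R) q' - M|
          have h5 : e ≤ |avP Φ h (A.tu R) q - M| := h2
          have h6 : |avP Φ h (A.tu R) q - M| ≤ |avP Φ h (A.tu R) q - avP Φ h (A.tu R) q'| + |avP Φ h (A.tu R) q' - M| := abs_sub_le _ _ _
          linarith
        rw [Set.indicator_of_mem h2, Set.indicator_of_mem h4]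
      · rw [Set.indicator_of_notMem h2]
        exact zero_le) y hy
  have hleft : (BadP Γ G Φ F0 h e (A.tu R)).indicator (fun _ => (1 : ENNReal)) = fun y : YS Γ (m + 1) => ({q : P (m + 1) | e ≤ |avP Φ h (A.tu R) q - M|}.indicator (fun _ => (1 : ENNReal))) y.2 := by
    funext x
    have h1 : (x ∈ BadP Γ G Φ F0 h e (A.tu R)) ↔ (x.2 ∈ {q : P (m + 1) | e ≤ |avP Φ h (A.tu R) q - M|}) := by
      show e ≤ |avP Φ h (A.tu R) x.2 - mean G F0 h| ↔ e ≤ |avP Φ h (A.tu R) x.2 - M|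
      rw [hM]
    by_cases h2 : x.2 ∈ {q : P (m + 1) | e ≤ |avP Φ h (A.tu R) q - M|}
    · rw [Set.indicator_of_mem h2, Set.indicator_of_mem (h1.mpr h2)]
    · rw [Set.indicator_of_notMem h2, Set.indicator_of_notMem (fun h3 => h2 (h1.mp h3))]
  rw [hleft]
  refine hmain.trans ?_
  -- the integral
  have hint : (∫⁻ w in Metric.closedBall (0 : W m) ρ, ({q : P (m + 1) | e / 2 ≤ |avP Φ h (A.tu R) q - M|}.indicator (fun _ => (1 : ENNReal))) (scl lam (Φ (lam * (b * A.tu R)) (κ (dir G y.2) (0, w))))) ≤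
      ENNReal.ofReal (K1 * ρ ^ m * Real.exp (-(lam * A.tu R / T0))) := by
    refine le_trans ?_ hLD
    have hle : ∀ w ∈ Metric.closedBall (0 : W m) ρ, ({q : P (m + 1) | e / 2 ≤ |avP Φ h (A.tu R) q - M|}.indicator (fun _ => (1 : ENNReal))) (scl lam (Φ (lam * (b * A.tu R)) (κ (dir G y.2) (0, w)))) ≤
        ({w : W m | ‖w‖ ≤ ρ ∧ 3 * (e / 6) ≤ |av f (fun x => h x.1.1) (lam * A.tu R) (f (lam * (b * A.tu R)) (κ' z (0, w))) - M|}.indicator (fun _ => (1 : ENNReal))) w := by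
      intro w hw
      have hw' : ‖w‖ ≤ ρ := by simpa using hw
      by_cases h2 : scl lam (Φ (lam * (b * A.tu R)) (κ (dir G y.2) (0, w))) ∈ {q : P (m + 1) | e / 2 ≤ |avP Φ h (A.tu R) q - M|}
      · have h3 : e / 2 ≤ |avP Φ h (A.tu R) (scl lam (Φ (lam * (b * A.tu R)) (κ (dir G y.2) (0, w)))) - M| := h2
        rw [LI7_scale hFl h hlam0] at h3
        have h4 : (κ' z (0, w)).1 = κ (dir G y.2) (0, w) := by
          apply hkk z (0, w)
          have h5 : ‖((0, w) : Z m)‖ = ‖w‖ := by simp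
          have h6 : ‖((0, w) : Z m)‖ ≤ e1 := by
            rw [h5]
            linarith
          exact h6
        have h5 : av f (fun x => h x.1.1) (lam * A.tu R) (f (lam * (b * A.tu R)) (κ' z (0, w))) = avV Φ h (lam * A.tu R) (Φ (lam * (b * A.tu R)) (κ (dir G y.2) (0, w))) := by
          unfold av avV
          congr 1
          apply intervalIntegral.integral_congr
          intro s _
          show h (f s (f (lam * (b * A.tu R)) (κ' z (0, w)))).1.1 = h (Φ s (Φ (lam * (b * A.tu R)) (κ (dir G y.2) (0, w)))).1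
          rw [hf, hf, h4]
        have h6 : w ∈ {w : W m | ‖w‖ ≤ ρ ∧ 3 * (e / 6) ≤ |av f (fun x => h x.1.1) (lam * A.tu R) (f (lam * (b * A.tu R)) (κ' z (0, w))) - M|} := by
          refine ⟨hw', ?_⟩
          rw [h5]
          linarith
        rw [Set.indicator_of_mem h2, Set.indicator_of_mem h6]
      · rw [Set.indicator_of_notMem h2]
        exact zero_le
    calc (∫⁻ w in Metric.closedBall (0 : W m) ρ, ({q : P (m + 1) | e / 2 ≤ |avP Φ h (A.tu R) q - M|}.indicator (fun _ => (1 : ENNReal))) (scl lam (Φ (lam * (b * A.tu R)) (κ (dir G y.2) (0, w)))))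
        ≤ ∫⁻ w in Metric.closedBall (0 : W m) ρ, ({w : W m | ‖w‖ ≤ ρ ∧ 3 * (e / 6) ≤ |av f (fun x => h x.1.1) (lam * A.tu R) (f (lam * (b * A.tu R)) (κ' z (0, w))) - M|}.indicator (fun _ => (1 : ENNReal))) w :=
          setLIntegral_mono' Metric.isClosed_closedBall.measurableSet hle
      _ ≤ ∫⁻ w, ({w : W m | ‖w‖ ≤ ρ ∧ 3 * (e / 6) ≤ |av f (fun x => h x.1.1) (lam * A.tu R) (f (lam * (b * A.tu R)) (κ' z (0, w))) - M|}.indicator (fun _ => (1 : ENNReal))) w := setLIntegral_le_lintegral _ _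
      _ ≤ volume {w : W m | ‖w‖ ≤ ρ ∧ 3 * (e / 6) ≤ |av f (fun x => h x.1.1) (lam * A.tu R) (f (lam * (b * A.tu R)) (κ' z (0, w))) - M|} := lintegral_indicator_const_le _ _ |>.trans (by simp)
  have hρm : R ^ ((m : ℝ) / 2) * ρ ^ m = R ^ ((m : ℝ) * (CD * A.z2)) := by
    rw [← Real.rpow_natCast, hρ, ← Real.rpow_mul hR0.le, ← Real.rpow_add hR0]
    congr 1
    ring
  have hx : CD * b * A.z2 + (m : ℝ) * (CD * A.z2) ≤ e2 / (4 * T0) := by
    have hCDle : CD ≤ C := by linarith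
    have h1 : CD * b * A.z2 ≤ e2 / (8 * T0) := by
      calc CD * b * A.z2 ≤ C * (2 * (2 / ν) / e2) * (e2 ^ 2 / (16 * C * (2 / ν) * T0)) := by
            have hz := hAz.trans (min_le_left _ _)
            gcongr
        _ = e2 / (8 * T0) := by
          field_simp
          ring
    have h2 : (m : ℝ) * (CD * A.z2) ≤ e2 / (16 * T0) := by
      calc (m : ℝ) * (CD * A.z2) ≤ ((m : ℝ) + 1) * (C * (e2 / (16 * ((m : ℝ) + 1) * C * T0))) := by
            have hz := hAz.trans (min_le_right _ _)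
            gcongr
            linarith
        _ = e2 / (16 * T0) := by
          field_simp
    have h3 : e2 / (8 * T0) + e2 / (16 * T0) ≤ e2 / (4 * T0) := by
      have h4 : e2 / (4 * T0) - (e2 / (8 * T0) + e2 / (16 * T0)) = e2 / (16 * T0) := by
        field_simp
        ring
      have h5 : 0 < e2 / (16 * T0) := by positivity
      linarith
    linarith
  have hbig' : K1 * (2 * Real.pi) ^ ((m + 1) * b) ≤ R ^ (e2 / (4 * T0)) := by
    refine le_trans ?_ hbig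
    apply mul_le_mul_of_nonneg_left _ (by linarith)
    apply pow_le_pow_right₀
    · have := Real.pi_gt_three
      linarith
    · exact Nat.mul_le_mul_left _ hbbm
  have hnum := LI7_num (R := R) (K1 := K1) (T0 := T0) (e2 := e2) (x := CD * b * A.z2 + (m : ℝ) * (CD * A.z2)) (T2 := lam * A.tu R) (m := m) (b := b) hR1' (by linarith) hT0' he2 hx hT2a hbig'
  calc ENNReal.ofReal (R ^ (((m : ℝ) + 1) * b + (m : ℝ) / 2 + CD * b * A.z2)) * ∫⁻ w in Metric.closedBall (0 : W m) ρ, ({q : P (m + 1) | e / 2 ≤ |avP Φ h (A.tu R) q - M|}.indicator (fun _ => (1 : ENNReal))) (scl lam (Φ (lam * (b * A.tu R)) (κ (dir G y.2) (0, w))))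
      ≤ ENNReal.ofReal (R ^ (((m : ℝ) + 1) * b + (m : ℝ) / 2 + CD * b * A.z2)) * ENNReal.ofReal (K1 * ρ ^ m * Real.exp (-(lam * A.tu R / T0))) := by gcongr
    _ = ENNReal.ofReal (R ^ (((m : ℝ) + 1) * b + (CD * b * A.z2 + (m : ℝ) * (CD * A.z2))) * (K1 * Real.exp (-(lam * A.tu R / T0)))) := by
        rw [← ENNReal.ofReal_mul (by positivity)]
        congr 1
        have h1 : R ^ (((m : ℝ) + 1) * b + (m : ℝ) / 2 + CD * b * A.z2) = R ^ (((m : ℝ) + 1) * b + CD * b * A.z2) * R ^ ((m : ℝ) / 2) := by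
          rw [← Real.rpow_add hR0]
          congr 1
          ring
        have h2 : R ^ (((m : ℝ) + 1) * b + (CD * b * A.z2 + (m : ℝ) * (CD * A.z2))) = R ^ (((m : ℝ) + 1) * b + CD * b * A.z2) * R ^ ((m : ℝ) * (CD * A.z2)) := by
          rw [← Real.rpow_add hR0]
          congr 1
          ring
        rw [h1, h2, ← hρm]
        ring
    _ ≤ _ := ENNReal.ofReal_le_ofReal hnum

end Pool.Agent.VDL
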