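import Pool.Agent.helper93.VD.SpecB4c

set_option autoImplicit false

open MeasureTheory Filter Set Topology
open scoped ENNReal

namespace Pool.Agent.VDL

open Pool.Agent.VD

theorem LVV_uc {d : ℕ} {Γ : Type} [Group Γ] [MulAction Γ (V d)] {K : Set (V d)} {η : V d → ℝ} (hDVV : DVV_stmt) (hK : FdK Γ K) (hη : Ctf K η) {h : V d → ℝ} (hc : Continuous h) (hi : ∀ (γ : Γ) (x : V d), h (γ • x) = h x) {e : ℝ} (he : 0 < e) :
    ∃ δ : ℝ, 0 < δ ∧ ∀ x y : V d, dV Γ η x y ≤ δ → |h x - h y| ≤ e := by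
  obtain ⟨-, hnn, -, -, -, hinv, -, -, ⟨CV, hCV, hlo⟩, -, -⟩ := hDVV d Γ K η hK hη
  have hK1 : IsCompact (Metric.cthickening 1 K) := hK.compact.cthickening
  have hu := hK1.uniformContinuousOn_of_continuous hc.continuousOn
  rw [Metric.uniformContinuousOn_iff_le] at hu
  obtain ⟨δ1, hδ1, hu⟩ := hu e he
  refine ⟨min (1 / 2) (min (1 / CV) (δ1 / CV)), by positivity, ?_⟩
  intro x y hxy
  obtain ⟨γ, hγ⟩ := hK.cover x
  have h1 : dV Γ η (γ • x) (γ • y) ≤ min (1 / 2) (min (1 / CV) (δ1 / CV)) := by rw [hinv]; exact hxy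
  have hCV0 : 0 < CV := by linarith
  have h2 := hlo (γ • x) (γ • y) hγ (h1.trans (min_le_left _ _))
  have h3 : ‖γ • x - γ • y‖ ≤ 1 := by
    refine h2.trans ?_
    calc CV * dV Γ η (γ • x) (γ • y) ≤ CV * (1 / CV) := mul_le_mul_of_nonneg_left (h1.trans ((min_le_right _ _).trans (min_le_left _ _))) hCV0.le
      _ = 1 := by field_simp
  have h4 : ‖γ • x - γ • y‖ ≤ δ1 := by
    refine h2.trans ?_
    calc CV * dV Γ η (γ • x) (γ • y) ≤ CV * (δ1 / CV) := mul_le_mul_of_nonneg_left (h1.trans ((min_le_right _ _).trans (min_le_right _ _))) hCV0.le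
      _ = δ1 := by field_simp
  have hx1 : γ • x ∈ Metric.cthickening 1 K := Metric.self_subset_cthickening K hγ
  have hy1 : γ • y ∈ Metric.cthickening 1 K := by
    apply Metric.mem_cthickening_of_dist_le (γ • y) (γ • x) 1 K hγ
    rw [dist_comm, dist_eq_norm]
    exact h3
  have h5 := hu (γ • x) hx1 (γ • y) hy1 (by rw [dist_eq_norm]; exact h4)
  rw [Real.dist_eq, hi, hi] at h5
  exact h5

theorem LVV_proof (hDVV : DVV_stmt) (hDGR : DGR_stmt) : LVV_stmt := by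
  intro d Γ _ _ K k B η hK hη
  obtain ⟨CD, hCD, hD⟩ := hDGR d Γ K k B η hK hη
  have hdV : ∀ p q : P d, dV Γ η p.1 q.1 ≤ dP Γ η p q := (hDVV d Γ K η hK hη).2.2.2.2.2.2.2.1
  refine ⟨12 * CD, by linarith, ?_⟩
  intro h e e2 hc hi hb he he2 hCe
  obtain ⟨δ, hδ, hu⟩ := LVV_uc hDVV hK hη hc hi he
  have ht : Tendsto (fun R : ℝ => CD * Real.exp CD * R ^ (-(1 / 4) : ℝ)) atTop (𝓝 (CD * Real.exp CD * 0)) := (tendsto_rpow_neg_atTop (by norm_num)).const_mul _
  rw [mul_zero] at ht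
  obtain ⟨R1, hR1⟩ := (ht.eventually (ge_mem_nhds hδ)).exists_forall_of_atTop
  refine ⟨max R1 1, le_max_right _ _, ?_⟩
  intro R G Φ hR hG hΦ q q' hq hq' hd t ht0 ht1
  have hR1' : 1 ≤ R := (le_max_right _ _).trans hR
  have hR0 : 0 < R := by linarith
  have hsm := hR1 R ((le_max_left _ _).trans hR)
  have hcl : ∀ s : ℝ, 0 ≤ s → s ≤ t → |h (Φ s q).1 - h (Φ s q').1| ≤ e := by
    intro s hs0 hs
    apply hu
    refine (hdV (Φ s q) (Φ s q')).trans (((hD G Φ hG hΦ).1 q q' s hq hq').trans (le_trans ?_ hsm))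
    rw [abs_of_nonneg hs0]
    have h1 : Real.exp (CD * s) ≤ Real.exp CD * R ^ (1 / 12 : ℝ) := by
      rw [Real.rpow_def_of_pos hR0, ← Real.exp_add]
      apply Real.exp_le_exp.mpr
      have h2 : CD * s ≤ CD * (e2 * Real.log R + 1) := mul_le_mul_of_nonneg_left (hs.trans ht1) (by linarith)
      have h3 : 0 ≤ Real.log R := Real.log_nonneg hR1'
      have h4 : CD * e2 ≤ 1 / 12 := by linarith
      have h5 : CD * e2 * Real.log R ≤ 1 / 12 * Real.log R := mul_le_mul_of_nonneg_right h4 h3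
      linarith
    have hdn : 0 ≤ R ^ (-(1 / 3) : ℝ) := Real.rpow_nonneg hR0.le _
    calc CD * Real.exp (CD * s) * dP Γ η q q' ≤ CD * (Real.exp CD * R ^ (1 / 12 : ℝ)) * R ^ (-(1 / 3) : ℝ) := by
          apply mul_le_mul _ hd _ (by positivity)
          · exact mul_le_mul_of_nonneg_left h1 (by linarith)
          · exact Real.iSup_nonneg (fun γ => norm_nonneg _)
      _ = CD * Real.exp CD * (R ^ (1 / 12 : ℝ) * R ^ (-(1 / 3) : ℝ)) := by ring
      _ = CD * Real.exp CD * R ^ (-(1 / 4) : ℝ) := by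
        rw [← Real.rpow_add hR0]
        norm_num
  have hcx : ∀ p : P d, Continuous (fun s : ℝ => h (Φ s p).1) := fun p => hc.comp (continuous_fst.comp (hΦ.smooth.continuous.comp (by fun_prop : Continuous (fun s : ℝ => ((s, p) : ℝ × P d)))))
  have h1 : avP Φ h t q - avP Φ h t q' = t⁻¹ * ∫ s in (0 : ℝ)..t, (h (Φ s q).1 - h (Φ s q').1) := by
    unfold avP
    rw [intervalIntegral.integral_sub ((hcx q).intervalIntegrable _ _) ((hcx q').intervalIntegrable _ _)]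
    ring
  have h2 : ‖∫ s in (0 : ℝ)..t, (h (Φ s q).1 - h (Φ s q').1)‖ ≤ e * |t - 0| := by
    apply intervalIntegral.norm_integral_le_of_norm_le_const
    intro s hs
    rw [Set.uIoc_of_le ht0.le] at hs
    rw [Real.norm_eq_abs]
    exact hcl s hs.1.le hs.2
  rw [Real.norm_eq_abs, sub_zero, abs_of_pos ht0] at h2
  rw [h1, abs_mul, abs_of_pos (inv_pos.mpr ht0)]
  calc t⁻¹ * |∫ s in (0 : ℝ)..t, (h (Φ s q).1 - h (Φ s q').1)| ≤ t⁻¹ * (e * t) := by gcongr
    _ = e := by field_simp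

end Pool.Agent.VDL
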