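import Pool.Agent.helper62.VD.SpecE
import Pool.Agent.helper93.VD.SpecB1

/-!
# Project VD (MP_07c750_an), block B4, part a: LARGE DEVIATIONS for the Liouville measure and for vertical discs (ABSTRACT, PURE); rows `vd:LXX`

ABSTRACT: a space `S` with a pseudo-distance `d`, a measure `μ`, a flow `f`; Bowen balls `BB d f T x r` (helper62's SpecE). The only input is the upper half of the volume lemma at ONE scale `ε` with ONE constant `C`.

RULES. Row `vd:LXX`: file `Pool/Agent/<seat>/VD/LXX.lean`, `import Pool.Agent.helper93.VD.SpecB4a`, `set_option autoImplicit false`, namespace `Pool.Agent.VDL`, `open Pool.Agent.VDE (BB av)`, `open MeasureTheory Filter Set Topology`, `open scoped ENNReal`, auxiliary lemmas prefixed `LXX_`,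
theorem `LXX_proof (h..) : LXX_stmt` (rows listed in `from` may be used as hypotheses `(h : YYY_stmt)`). No `convert`, `congr!`, `native_decide`, no double quotes, no `private`.
-/

set_option autoImplicit false

open MeasureTheory Filter Set Topology
open scoped ENNReal

namespace Pool.Agent.VDL

open Pool.Agent.VDE (BB av)
open Pool.Agent.VD (W Z)

noncomputable section

/-- what is used of the flow: pseudo-distance, continuity, the upper volume lemma at the scale `ε` -/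
structure VL {S : Type} [TopologicalSpace S] [MeasurableSpace S] (μ : Measure S) (d : S → S → ℝ) (f : ℝ → S → S) (ε C : ℝ) : Prop where
  ep : 0 < ε
  hC : 1 ≤ C
  dc : Continuous (Function.uncurry d)
  d0 : ∀ x y, 0 ≤ d x y
  dz : ∀ x, d x x = 0
  ds : ∀ x y, d x y = d y x
  dt : ∀ x y z, d x z ≤ d x y + d y z
  f0 : ∀ x, f 0 x = x
  fa : ∀ (s t : ℝ) (x : S), f (s + t) x = f s (f t x)
  fcn : Continuous (fun p : ℝ × S => f p.1 p.2)
  up : ∀ (x : S) (T U : ℝ), 0 ≤ T → 0 ≤ U → μ (BB d f (T + U) x (16 * ε)) ≤ ENNReal.ofReal C * (μ (BB d f T x (ε / 16)) * μ (BB d f U (f T x) (ε / 16)))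
  one : ∀ x : S, μ (BB d f 0 x (16 * ε)) ≤ ENNReal.ofReal C

/-- `(T, r)`-separated sets -/
def Sep {S : Type} (d : S → S → ℝ) (f : ℝ → S → S) (T r : ℝ) (E : Set S) : Prop := ∀ x ∈ E, ∀ y ∈ E, x ≠ y → ∃ s ∈ Icc (0 : ℝ) T, r < d (f s x) (f s y)

/-- test functions with mean value `M`, adapted to the scale `ε` and to the precision `e`; the weak law at the time `T0` with the bound `v0` in every ball -/
structure WK {S : Type} [TopologicalSpace S] [MeasurableSpace S] (μ : Measure S) (d : S → S → ℝ) (f : ℝ → S → S) (h : S → ℝ) (M e ε T0 v0 : ℝ) : Prop where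
  ep : 0 < e
  hT : 0 < T0
  hv : 0 < v0
  hc : Continuous h
  hb : ∀ x, |h x| ≤ 1
  hM : |M| ≤ 1
  hu : ∀ x y, d x y ≤ 16 * ε → |h x - h y| ≤ e / 16
  wl : ∀ x : S, μ {y | d x y ≤ 16 * ε ∧ e / 8 ≤ |av f h T0 y - M|} ≤ ENNReal.ofReal v0

open Classical in
/-- the number of bad blocks (threshold `e / 2`) among the first `n` blocks of length `T0` -/
def nb {S : Type} (f : ℝ → S → S) (h : S → ℝ) (M e T0 : ℝ) : ℕ → S → ℕ
  | 0, _ => 0
  | n + 1, x => (if e / 2 ≤ |av f h T0 x - M| then 1 else 0) + nb f h M e T0 n (f T0 x)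

/-- **Row LNT** (separated sets; short-medium; PURE; copy of row ESP of block E, Pool/Agent/*/VDE/ESP.lean, without the group). `A` a subset of an index space `X`, `δ : X → S`. Zorn's lemma for the subsets `E ⊆ A` with the separation property (`zorn_subset`); maximality gives the covering. Countable: for `x ∈ E` the sets `{y : S | ∀ s ∈ Icc 0 T, d (f s (δ x)) (f s y) < r / 2}` are open
(`Icc` is compact, the map is jointly continuous), contain `δ x` and are pairwise disjoint (`Set.PairwiseDisjoint.countable_of_isOpen`; `S` is second countable, so separable). `BB` is closed, so measurable: last part. -/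
def LNT_stmt : Prop := ∀ (S X : Type) [TopologicalSpace S] [SecondCountableTopology S] [MeasurableSpace S] [BorelSpace S] (μ : Measure S) (d : S → S → ℝ) (f : ℝ → S → S) (ε C : ℝ), VL μ d f ε C →
  (∀ (T r : ℝ) (δ : X → S) (A : Set X), 0 < r → ∃ E : Set X, E ⊆ A ∧ E.Countable ∧ (∀ x ∈ E, ∀ y ∈ E, x ≠ y → ∃ s ∈ Icc (0 : ℝ) T, r < d (f s (δ x)) (f s (δ y))) ∧ ∀ w ∈ A, ∃ x ∈ E, ∀ s ∈ Icc (0 : ℝ) T, d (f s (δ x)) (f s (δ w)) ≤ r) ∧
  ∀ (x : S) (T r : ℝ), IsClosed (BB d f T x r)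

/-- **Row LLS** (local sums; short-medium; from LNT). `z ≥ 0`. For `y ∈ E`: `μ (BB T0 y (16ε)) ≤ C² μ (BB T0 y (ε/16))` (`up` with `U = 0`, `one`). The sets `BB T0 y (ε/16)`, `y ∈ E`, are disjoint (`E` is `(T0, ε)`-separated), measurable, and for `d x y ≤ 4ε` contained in `{w | d x w ≤ 16ε}` (take `s = 0`, `f 0 = id`), of measure `≤ C`: `Σ ≤ C² C`. If `e/4 ≤ |av T0 y - M|` then
`|av T0 w - av T0 y| ≤ e/16` for `w` in the Bowen ball (`hu` for the integrands), so `e/8 ≤ |av T0 w - M|` there: the sum over these `y` is `≤ C² v0` (`wl`). `z^[..] ≤ 1 + z 1_[..]`. -/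
def LLS_stmt : Prop := ∀ (S : Type) [TopologicalSpace S] [SecondCountableTopology S] [MeasurableSpace S] [BorelSpace S] (μ : Measure S) (d : S → S → ℝ) (f : ℝ → S → S) (ε C : ℝ), VL μ d f ε C →
  ∀ (h : S → ℝ) (M e T0 v0 z : ℝ), WK μ d f h M e ε T0 v0 → 0 ≤ z → ∀ E : Set S, E.Countable → Sep d f T0 ε E → ∀ x : S,
    ∑' y : E, (open Classical in if d x y ≤ 4 * ε then μ (BB d f T0 y (16 * ε)) * (if e / 4 ≤ |av f h T0 y - M| then ENNReal.ofReal (1 + z) else 1) else 0) ≤ ENNReal.ofReal (C ^ 2 * (C + z * v0))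

/-- **Row LPN** (THE INDUCTION; medium; from LNT, LLS). `z ≥ 1`, `D = C³ (C + z v0)`. Induction on `n`, for all `x` and all countable `A ⊆ {w | d x w ≤ ε}` which are `(n T0, 2ε)`-separated. `n = 0`: any two points of `A` are at distance `≤ 2ε`, so `A` has at most one point: `one`.
`n + 1`: `E` a maximal `(T0, ε)`-separated subset of `S` (LNT with `X = S`, `δ = id`, `A = univ`); `y(w) ∈ E` with `w ∈ BB T0 (y(w)) ε`, so `d x y(w) ≤ 2ε`. For fixed `y` let `A_y = {w ∈ A | y(w) = y}`: two points of `A_y` are `2ε`-close for all times in `[0, T0]`, so `f T0` is injective on `A_y` and `f T0 '' A_y ⊆ {w' | d (f T0 y) w' ≤ ε}` is `(n T0, 2ε)`-separated.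
`μ(BB ((n+1)T0) w (16ε)) ≤ C μ(BB T0 w (ε/16)) μ(BB (nT0) (f T0 w) (ε/16))` (`up`), `BB T0 w (ε/16) ⊆ BB T0 y (16ε)`, `BB _ _ (ε/16) ⊆ BB _ _ (16ε)`; `nb (n+1) w = [e/2 ≤ |av T0 w - M|] + nb n (f T0 w)`, and `e/2 ≤ |av T0 w - M|` implies `e/4 ≤ |av T0 y - M|` (`hu`). So the sum over `A_y` is at most
`C μ(BB T0 y (16ε)) z^[e/4 ≤ ..] (C Dⁿ)` and LLS (`z` there is `z - 1`, or use `z ≤ 1 + z`) gives `C · C² (C + z v0) · C Dⁿ`. Regroup the sum with `Equiv.sigmaFiberEquiv`, `ENNReal.tsum_sigma`. -/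
def LPN_stmt : Prop := ∀ (S : Type) [TopologicalSpace S] [SecondCountableTopology S] [MeasurableSpace S] [BorelSpace S] (μ : Measure S) (d : S → S → ℝ) (f : ℝ → S → S) (ε C : ℝ), VL μ d f ε C →
  ∀ (h : S → ℝ) (M e T0 v0 z : ℝ), WK μ d f h M e ε T0 v0 → 1 ≤ z → ∀ (n : ℕ) (x : S) (A : Set S), A.Countable → (∀ w ∈ A, d x w ≤ ε) → Sep d f (n * T0) (2 * ε) A →
    ∑' w : A, ENNReal.ofReal (z ^ nb f h M e T0 n w) * μ (BB d f (n * T0) w (16 * ε)) ≤ ENNReal.ofReal (C * (C ^ 3 * (C + z * v0)) ^ n)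

/-- **Row LCN** (counting; short; PURE). `n ≥ 1`, `T0 > 0`. `av (nT0) x - M = n⁻¹ Σ_(k<n) (av T0 (f (kT0) x) - M)`; each term is at most `2` in absolute value and less than `e/2` if the block is good: `n e ≤ 2 nb + n e/2`. (`intervalIntegral.sum_integral_adjacent_intervals` or induction on `n`, `fa`.) Second part: `|av T x - av T' x| ≤ 2 |T - T'|/T` for `0 < T' ≤ T`. -/
def LCN_stmt : Prop := ∀ (S : Type) [TopologicalSpace S] [MeasurableSpace S] (μ : Measure S) (d : S → S → ℝ) (f : ℝ → S → S) (ε C : ℝ), VL μ d f ε C → ∀ (h : S → ℝ) (M e T0 : ℝ), 0 < e → 0 < T0 → Continuous h → (∀ x, |h x| ≤ 1) → |M| ≤ 1 →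
  (∀ (n : ℕ) (x : S), 1 ≤ n → e ≤ |av f h (n * T0) x - M| → e * n / 4 ≤ nb f h M e T0 n x) ∧ ∀ (T T' : ℝ) (x : S), 0 < T' → T' ≤ T → |av f h T x - av f h T' x| ≤ 2 * (T - T') / T

/-- **Row LDV** (LARGE DEVIATIONS FOR THE MEASURE; medium; from LNT, LPN, LCN). `v0 = (exp 1 * C³ (C + 1))^(-4/e)`, `z = 1/v0 ≥ 1`. `B = {w | d x w ≤ ε, e ≤ |av (nT0) w - M|}`, `A` a maximal `(nT0, 2ε)`-separated subset (LNT with `X = S`): `μ B ≤ Σ_(w ∈ A) μ(BB (nT0) w (16ε))` (countable union; `2ε ≤ 16ε`). By LCN `z^(nb) ≥ z^(en/4)`, so by LPN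
`z^(en/4) μ B ≤ C (C³ (C+1))ⁿ` and `μ B ≤ C (C³(C+1) v0^(e/4))ⁿ = C e⁻ⁿ`. For real `T ≥ 4 T0/e`, threshold `2e`: `n = ⌊T/T0⌋₊ ≥ T/T0 - 1`, `|av T w - av (nT0) w| ≤ 2 T0/T ≤ e/2`. -/
def LDV_stmt : Prop := ∀ (C e : ℝ), 1 ≤ C → 0 < e → e ≤ 1 → ∃ v0 : ℝ, 0 < v0 ∧ ∀ (S : Type) [TopologicalSpace S] [SecondCountableTopology S] [MeasurableSpace S] [BorelSpace S] (μ : Measure S) (d : S → S → ℝ) (f : ℝ → S → S) (ε : ℝ), VL μ d f ε C →
  ∀ (h : S → ℝ) (M T0 : ℝ), WK μ d f h M e ε T0 v0 → ∀ (x : S) (T : ℝ), 4 * T0 / e ≤ T → μ {w | d x w ≤ ε ∧ 2 * e ≤ |av f h T w - M|} ≤ ENNReal.ofReal (C * Real.exp (1 - T / T0))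

/-- discs: `δ : ℝ^m → S` with volumes comparable with those of the Bowen balls (outputs of the sections) -/
structure DSK {S : Type} [TopologicalSpace S] [MeasurableSpace S] (μ : Measure S) (d : S → S → ℝ) (f : ℝ → S → S) (ε C : ℝ) {m : ℕ} (e1 a : ℝ) (δ : W m → S) : Prop where
  hc : ContinuousOn δ (Metric.closedBall 0 e1)
  d2 : ∀ (w : W m) (T : ℝ), ‖w‖ ≤ e1 / 2 → 0 ≤ T → μ (BB d f T (δ w) (16 * ε)) ≤ ENNReal.ofReal C * volume {w' : W m | ‖w'‖ ≤ e1 ∧ δ w' ∈ BB d f T (δ w) (ε / 16)}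
  d3 : ∀ (w w' : W m) (T : ℝ), ‖w‖ ≤ e1 / 2 → ‖w'‖ ≤ e1 → 0 ≤ T → δ w' ∈ BB d f T (δ w) (16 * ε) → ‖w' - w‖ ≤ C * Real.exp (-(a * T))

/-- **Row LDS** (SUMS OVER SEPARATED SETS IN A DISC; medium; from LNT). `F ⊆ E` a maximal subset which is `(T1, ε/4)`-separated (LNT with `X = W m`, `A = E`); `φ(θ) ∈ F` with `d (f s (δ φ)) (f s (δ θ)) ≤ ε/4` for `s ∈ [0, T1]`. For `θ` in the group of `φ`, `X_θ = f T1 (δ θ)`: `μ(BB (T1+T2) (δθ) (16ε)) ≤ C μ(BB T1 (δθ) (ε/16)) μ(BB T2 X_θ (ε/16)) ≤ C μ(BB T1 (δφ) (16ε)) μ(BB T2 X_θ (ε/16))`.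
Two points of one group are `ε/2`-close for the times `≤ T1`, so they are `> ε` apart at a time in `(T1, T1 + T2]`: the sets `BB T2 X_θ (ε/16)` are disjoint, contained in `B` (hypothesis) and in `{w | d (f T1 (δφ)) w ≤ ε}` (`ε/4 + ε/16`): the sum over the group is `≤ C μ(BB T1 (δφ) (16ε)) β`. By `d2` `Σ_φ μ(BB T1 (δφ) (16ε)) ≤ C Σ_φ volume {w' | ‖w'‖ ≤ e1, δ w' ∈ BB T1 (δφ) (ε/16)}`:
disjoint sets (`2ε/16 < ε/4`; measurable: `ContinuousOn.preimage_isClosed_of_isClosed`), contained in the ball of radius `2ρ` (`d3`: `‖w' - φ‖ ≤ C exp (-(a T1)) ≤ ρ`), whose volume is `(2ρ)^m volume (ball 0 1)`. Total `≤ C² (2ρ)^m vol(ball) β`. -/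
def LDS_stmt : Prop := ∀ (m : ℕ) (C : ℝ), 1 ≤ C → ∃ K : ℝ, 1 ≤ K ∧ ∀ (S : Type) [TopologicalSpace S] [SecondCountableTopology S] [MeasurableSpace S] [BorelSpace S] (μ : Measure S) (d : S → S → ℝ) (f : ℝ → S → S) (ε : ℝ), VL μ d f ε C →
  ∀ (e1 a : ℝ) (δ : W m → S), DSK μ d f ε C e1 a δ → ∀ (ρ T1 T2 β : ℝ) (B : Set S) (E : Set (W m)), 0 < ρ → ρ ≤ e1 / 2 → 0 ≤ T1 → 0 ≤ T2 → C * Real.exp (-(a * T1)) ≤ ρ → 0 ≤ β → (∀ x : S, μ ({w | d x w ≤ ε} ∩ B) ≤ ENNReal.ofReal β) →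
    E.Countable → (∀ θ ∈ E, ‖θ‖ ≤ ρ) → (∀ θ ∈ E, ∀ θ' ∈ E, θ ≠ θ' → ∃ s ∈ Icc (0 : ℝ) (T1 + T2), ε < d (f s (δ θ)) (f s (δ θ'))) → (∀ θ ∈ E, BB d f T2 (f T1 (δ θ)) (ε / 16) ⊆ B) →
    ∑' θ : E, μ (BB d f (T1 + T2) (δ θ) (16 * ε)) ≤ ENNReal.ofReal (K * ρ ^ m * β)

end

end Pool.Agent.VDL
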