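import Pool.Agent.helper93.VD.SpecB4b
import Pool.Agent.helper11.VD.Spec3d
import Pool.Agent.helper82.VD.SpecI
import Pool.Agent.helper82.VD.SpecJ
import Pool.Agent.helper84.VD.SpecB2

/-!
# Project VD (MP_07c750_an), block B4, part c: LARGE DEVIATIONS FOR THE CHAIN OF BIG STEPS, `I7D`; rows `vd:LXX`

RULES as in SpecB4a (`import Pool.Agent.helper93.VD.SpecB4c`, namespace `Pool.Agent.VDL`).
-/

set_option autoImplicit false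

open MeasureTheory Filter Set Topology
open scoped ENNReal

namespace Pool.Agent.VDL

open Pool.Agent.VD
open Pool.Agent.VQ (CH qZ)
open Pool.Agent.VDE (BB av FlD UWLD mnV avV liou FDX dir)
open Pool.Agent.VDG (muS GeU)

noncomputable section

/-- SECTIONS FOR THE CLASS (helper84: SSE + GEO for the class): constants uniform, `C'` as large as we like -/
def SCL_stmt : Prop := ∀ (m : ℕ) (Γ : Type) [Group Γ] [MulAction Γ (V (m + 1))] (K : Set (V (m + 1))) (k : ℝ) (B : ℕ → ℕ → ℝ) (η : V (m + 1) → ℝ) (C0 : ℝ), FdK Γ K → Ctf K η → ∃ c C' e0 e1 : ℝ, 0 < c ∧ C0 ≤ C' ∧ 1 ≤ C' ∧ 0 < e0 ∧ 0 < e1 ∧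
  ∀ (G : V (m + 1) → V (m + 1) →L[ℝ] V (m + 1)) (Φ : ℝ → P (m + 1) → P (m + 1)), Cls Γ K k B G → IsFlow G Φ → ∃ κ : P (m + 1) → Z m → P (m + 1), SEC c C' e0 e1 {p | nrm G p = 1} (dP Γ η) Φ κ

/-- the covector `(x, l ξ)` -/
def scl {d : ℕ} (l : ℝ) (p : P d) : P d := (p.1, l • p.2)

/-- **DOB** (COMPRESSION OF `b` BIG STEPS, owner helper84): the chain of `b` big steps is dominated by the true flow of the vertical disc of radius `R^(-1/2 + C z2)` at the (normalised) starting point, up to errors `R^(-1/3)` at the end -/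
def DOB_stmt : Prop := ∀ (m : ℕ) (Γ : Type) [Group Γ] [MulAction Γ (V (m + 1))] (K : Set (V (m + 1))) (r0 : ℝ) (χ : V (m + 1) → ℝ) (ch : ℝ → ℝ) (η : V (m + 1) → ℝ) (k : ℝ) (B : ℕ → ℕ → ℝ) (c C' e0 e1 : ℝ), 1 ≤ m → FdK Γ K → PU Γ r0 χ → CH ch → Ctf K η → 0 < c → 1 ≤ C' → 0 < e0 → 0 < e1 →
  ∃ C : ℝ, 1 ≤ C ∧ ∀ (A : Par) (b : ℕ), Adm C A → 1 ≤ b → ∃ R0 : ℝ, 1 ≤ R0 ∧ ∀ (R : ℝ) (G : V (m + 1) → V (m + 1) →L[ℝ] V (m + 1)) (Φ : ℝ → P (m + 1) → P (m + 1)) (κ : P (m + 1) → Z m → P (m + 1)), R0 ≤ R → Cls Γ K k B G → IsFlow G Φ →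
    SEC c C' e0 e1 {p | nrm G p = 1} (dP Γ η) Φ κ → ∀ (V0 V1 : P (m + 1) → ENNReal), Measurable V0 → Measurable V1 → (∀ (γ : Γ) (q : P (m + 1)), V1 (lft γ q) = V1 q) →
      (∀ q q' : P (m + 1), 1 / 2 ≤ nrm G q → nrm G q ≤ 3 / 2 → 1 / 2 ≤ nrm G q' → nrm G q' ≤ 3 / 2 → dP Γ η q q' ≤ R ^ (-(1 / 3) : ℝ) → V0 q ≤ V1 q') →
      ∀ y : YS Γ (m + 1), y ∈ GW Γ G r0 (5 / 4) R → qZ (mW Γ G r0 R) (fun x y => ‖ub G Φ r0 χ ch A R x y‖ₑ) b (fun y => V0 y.2) y ≤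
        ENNReal.ofReal (R ^ (((m : ℝ) + 1) * b + (m : ℝ) / 2 + C * b * A.z2)) *
          ∫⁻ w in Metric.closedBall (0 : W m) (R ^ (-(1 / 2) + C * A.z2)), V1 (scl (nrm G y.2) (Φ (nrm G y.2 * (b * A.tu R)) (κ (dir G y.2) (0, w))))

/-- **Row LVV** (stability of the bad sets; short-medium; from DPP, DGR). `h` continuous, invariant, `0 ≤ h ≤ 1`; `C` of DGR: `dP (Φ t q) (Φ t q') ≤ C e^(C t) dP q q'` for `nrm ≤ 3/2`; for `0 ≤ t ≤ A.tu R ≤ e2 log R + 1` and `12 C e2 ≤ 1` this is at most `C e^C R^(1/12 - 1/3) ≤ R^(-1/5)` for large `R`. `h` is uniformly continuous for `dP`: there is `δ > 0` with `|h p.1 - h q.1| ≤ e` for `dP p q ≤ δ`, `nrm p ≤ 3/2`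
(translate `p.1` to `K`; DPP: `‖p - q‖ ≤ C dP p q`, `GNR`-type bound `‖p.2‖ ≤ C nrm p` on `K` uniformly in the class (DPP needs `‖p.2‖ ≤ r`); `h` is uniformly continuous on the compact set `cthickening 1 K`). Then `|avP τ q - avP τ q'| ≤ e`. -/
def LVV_stmt : Prop := ∀ (d : ℕ) (Γ : Type) [Group Γ] [MulAction Γ (V d)] (K : Set (V d)) (k : ℝ) (B : ℕ → ℕ → ℝ) (η : V d → ℝ), FdK Γ K → Ctf K η → ∃ C : ℝ, 1 ≤ C ∧ ∀ (h : V d → ℝ) (e e2 : ℝ), Continuous h → (∀ (γ : Γ) (x : V d), h (γ • x) = h x) → (∀ x, 0 ≤ h x ∧ h x ≤ 1) → 0 < e → 0 < e2 → C * e2 ≤ 1 →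
  ∃ R0 : ℝ, 1 ≤ R0 ∧ ∀ (R : ℝ) (G : V d → V d →L[ℝ] V d) (Φ : ℝ → P d → P d), R0 ≤ R → Cls Γ K k B G → IsFlow G Φ → ∀ q q' : P d, nrm G q ≤ 3 / 2 → nrm G q' ≤ 3 / 2 → dP Γ η q q' ≤ R ^ (-(1 / 3) : ℝ) →
    ∀ t : ℝ, 0 < t → t ≤ e2 * Real.log R + 1 → |avP Φ h t q - avP Φ h t q'| ≤ e

/-- **Row LI7** = `I7D_stmt` of helper11/VD/Spec3d (medium; from DOB, SCL, VDG.GUE, VDE.FLD (helper62/VDE/IUD), VDG.GJF, LWK, LDT, LVV, DCT, AMVI (mean = mnV)). `d = m + 1`, `η` from DCT. Constants: `GUE` gives `r1`, `Cg`; SCL with `C0 = Cg` gives `c, C', e0, e1` (GeU is monotone in its constant: enlarge it to `C'`; `FlD` only uses it in `Dis.lo`, `Dis.up`); GJF gives `ε0, e3, ν, Cf`. `cb = 2/ν`, `C` = the maximum of the constants of DOB and LVV (and `1`).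
If `e > 1` the bad set is empty (`0 ≤ avP, mean ≤ 1`) and `qZ .. = 0`. Let `e ≤ 1`, `e' = e/6`. LWK (for `h`, `e'`, constant `C'` of `FlD`): `ε1`, `n0`; `ε = min ε0 ε1`; LDT for `m`, `Cf ε`, `e'`: `v1`, `K1`; `v0 = v1/n0`. Given `T0`, `e2`: `th = e2/(4 T0)`, `z0 = min (e2²/(16 C cb T0)) (e2/(16 (m+1) C T0))`. `b ≤ 2 cb/e2` (from `b A.tu R ≤ 2 cb log R`, `A.tu R ≥ e2 log R`), `b ≥ 1`: finitely many `b`: `R0` = the maximum over them.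
`V0 q = 1[e ≤ |avP τ q - M|]`, `V1 q = 1[e/2 ≤ |avP τ q - M|]`, `τ = A.tu R`, `M = mean = mnV`: the hypothesis of DOB by LVV (with `e/2`), invariance by `GEQ` and the invariance of `h`. `λ = nrm y.2 ∈ [3/4, 5/4]` (`|Ep| = |λ² - 1|/2 ≤ (5/4) R^(-1/4)`). `avP τ (scl λ z) = avV (λτ) z` (`FlD.fs`, substitution), so the integral in DOB is
`volume {w | ‖w‖ ≤ ρ, e/2 ≤ |av (λτ) (f (λ b τ) (δ w)) - M|}`, `δ w = κ' ⟨dir y.2, _⟩ (0, w)`, and LDT with `T1 = λ b τ`, `T2 = λ τ`, `3 e' = e/2` applies: `Cf exp (-ν T1) ≤ Cf R^(-3/2) ≤ R^(-1/2) ≤ ρ ≤ e3/2`, `4 T0/e' ≤ T2`; WK from LWK: `UWLD (e/100)` implies `UWLD (e'/8)`, bound `n0 v0 = v1`. Result: `≤ K1 ρ^m exp (-λτ/T0) ≤ K1 ρ^m R^(-3 e2/(4 T0))`.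
Total: `R^(d b + m/2 + C b z2) K1 ρ^m R^(-3 e2/(4 T0)) = K1 R^(d b + C (b + m) z2 - 3 e2/(4 T0)) ≤ R^(-th) ((R/2π)^d)^b` because `C b z2 ≤ e2/(8 T0)`, `C m z2 ≤ e2/(16 T0)` and `K1 (2π)^(d b) ≤ R^(e2/(4 T0))` for large `R`. -/
def LI7_stmt : Prop := I7D_stmt

end

end Pool.Agent.VDL
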