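import Pool.Agent.helper93.VD.LI7
import Pool.Agent.helper93.VD.LVV
import Pool.Agent.helper93.VD.LDT
import Pool.Agent.helper93.VD.LCN
import Pool.Agent.helper29.VD.LNT
import Pool.Agent.helper14.VD.LLS
import Pool.Agent.helper96.VD.LPN
import Pool.Agent.helper89.VD.LDV
import Pool.Agent.helper94.VD.LDS
import Pool.Agent.helper94.VD.LLWB
import Pool.Agent.helper17.VD.LWK
import Pool.Agent.helper80.VD.AllD
import Pool.Agent.helper82.VD.AllH
import Pool.Agent.helper29.VDG.GUE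
import Pool.Agent.helper32.VD.AMVI

/-!
# Project VD (MP_07c750_an), block B4 (large deviations): ALL ROWS ARE CLOSED up to the inputs DOB (helper84), SCL, GJF (helper82)
-/

set_option autoImplicit false

namespace Pool.Agent.VDL

open Pool.Agent.VD

theorem B4_LNT : LNT_stmt := LNT_proof
theorem B4_LLS : LLS_stmt := LLS_proof B4_LNT
theorem B4_LPN : LPN_stmt := LPN_proof B4_LNT B4_LLS
theorem B4_LCN : LCN_stmt := LCN_proof
theorem B4_LDV : LDV_stmt := LDV_proof B4_LNT B4_LPN B4_LCN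
theorem B4_LDS : LDS_stmt := LDS_proof B4_LNT
theorem B4_LDT : LDT_stmt := LDT_proof B4_LNT B4_LDS B4_LDV
theorem B4_LLW : LLW_stmt := LLW_proof VDG.SLF_t VDG.SLI_t
theorem B4_LWK : LWK_stmt := LWK_proof B4_LLW VDG.SNM_t VDG.SLF_t
theorem B4_LVV : LVV_stmt := LVV_proof D_DVV D_DGR
theorem B4_FLD : VDE.FLD_stmt := fun d Γ _ _ K k B χ hK hχ => by
  obtain ⟨C, -, hC⟩ := D_FLD d Γ K k B χ hK hχ
  exact ⟨C, hC⟩
theorem B4_GUE : VDG.GUE_stmt := VDG.GUE_proof F_GIN D_DPP D_DGR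
theorem B4_LI7 (hDOB : DOB_stmt) (hSCL : SCL_stmt) (hGJF : VDG.GJF_stmt) : LI7_stmt :=
  LI7_proof hDOB hSCL B4_GUE B4_FLD hGJF B4_LWK B4_LDT B4_LVV D_DCT (AMVI_proof F_GIN F_GLF)

end Pool.Agent.VDL
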