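import Pool.Agent.helper93.VD.AllB4
import Pool.Agent.helper82.VD.AllJ
import Pool.Agent.helper84.VD.All5

/-!
# Project VD (MP_07c750_an): large deviations `I7D`: everything from the single input `A9DD` (block A)
-/

set_option autoImplicit false

namespace Pool.Agent.VDL

open Pool.Agent.VD

/-- (I7) large deviations for the chain of big steps -/
theorem B5_I7D (hA9DD : A9DD_stmt) : I7D_stmt := B4_LI7 (B5_DOB hA9DD) B3_SCM VDG.GJF_t

end Pool.Agent.VDL
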