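import Pool.Agent.helper82.VD.AllJ

/-! Project VD: the assembly of block B3 part 3 is `helper82/VD/AllJ.lean`. -/
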