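import Pool.Agent.helper84.VD.SpecB5

/-! Row vd:DOBR (MP_07c750). -/

set_option autoImplicit false

open scoped ContDiff Topology InnerProductSpace ENNReal
open MeasureTheory Filter Set

namespace Pool.Agent.VD

open Pool.Agent.VQ (CH qZ)
open Pool.Agent.VDE (dir)

noncomputable section

/-- the sup distance -/
def DOBX_del {m : ℕ} (D : P (m + 1) → P (m + 1) → ℝ) (Φ : ℝ → P (m + 1) → P (m + 1)) (κ : P (m + 1) → Z m → P (m + 1)) (z : P (m + 1)) (l : ℝ) (N : ℕ) (v w : W m) : ℝ :=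
  (Finset.range (N + 1)).sup' ⟨0, Finset.mem_range.2 (Nat.succ_pos N)⟩ fun i : ℕ => D (Φ (i * l) (κ z (0, v))) (Φ (i * l) (κ z (0, w)))

theorem DOBX_le {m : ℕ} {D : P (m + 1) → P (m + 1) → ℝ} {Φ : ℝ → P (m + 1) → P (m + 1)} {κ : P (m + 1) → Z m → P (m + 1)} {z : P (m + 1)} {l : ℝ} {N : ℕ} {v w : W m} {i : ℕ} (hi : i ≤ N) :
    D (Φ (i * l) (κ z (0, v))) (Φ (i * l) (κ z (0, w))) ≤ DOBX_del D Φ κ z l N v w :=
  Finset.le_sup' (f := fun i : ℕ => D (Φ (i * l) (κ z (0, v))) (Φ (i * l) (κ z (0, w)))) (Finset.mem_range.2 (Nat.lt_succ_of_le hi))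

theorem DOBX_del_le {m : ℕ} {D : P (m + 1) → P (m + 1) → ℝ} {Φ : ℝ → P (m + 1) → P (m + 1)} {κ : P (m + 1) → Z m → P (m + 1)} {z : P (m + 1)} {l : ℝ} {N : ℕ} {v w : W m} {c : ℝ}
    (h : ∀ i ≤ N, D (Φ (i * l) (κ z (0, v))) (Φ (i * l) (κ z (0, w))) ≤ c) : DOBX_del D Φ κ z l N v w ≤ c := by
  unfold DOBX_del
  rw [Finset.sup'_le_iff]
  intro i hi
  exact h i (Nat.lt_succ_iff.1 (Finset.mem_range.1 hi))

/-- the abstract core -/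
theorem DOBX_core {m : ℕ} {Γ : Type} [Group Γ] [MulAction Γ (V (m + 1))] (hQZC : QZC_stmt) (hSPT : SPT_stmt) (D : P (m + 1) → P (m + 1) → ℝ) (Φ : ℝ → P (m + 1) → P (m + 1)) (κ : P (m + 1) → Z m → P (m + 1))
    (M : YS Γ (m + 1) → YS Γ (m + 1) → ENNReal) (mu : Measure (YS Γ (m + 1))) (V0 V1 : P (m + 1) → ENNReal) (y : YS Γ (m + 1)) (b n1 : ℕ) (l s ρ e1 L : ℝ) (z : P (m + 1)) (Wc mb : ENNReal) (Gs : Set (YS Γ (m + 1)))
    (hd0 : ∀ p q, 0 ≤ D p q ∧ D p p = 0 ∧ D p q = D q p) (hdt : ∀ p q r, D p r ≤ D p q + D q r) (s2 : ∀ p q, D (sc l p) (sc l q) ≤ 2 * D p q) (hL : 0 ≤ L)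
    (hlip : ∀ v w : W m, ‖v‖ ≤ e1 → ‖w‖ ≤ e1 → ∀ i ≤ b * n1, D (Φ (i * l) (κ z (0, v))) (Φ (i * l) (κ z (0, w))) ≤ L * ‖v - w‖)
    (hs : 0 < s) (hse : s ≤ e1) (hρe : ρ ≤ e1)
    (hmN : ∀ (v : W m) (j : ℕ), MeasurableSet {y' : YS Γ (m + 1) | D (sc l (Φ (j * n1 * l) (κ z (0, v)))) (lft (y.1⁻¹ * y'.1) y'.2) ≤ 5 * s})
    (hmu : ∀ (v : W m) (j : ℕ), mu {y' : YS Γ (m + 1) | D (sc l (Φ (j * n1 * l) (κ z (0, v)))) (lft (y.1⁻¹ * y'.1) y'.2) ≤ 5 * s} ≤ mb)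
    (hch : ∀ w : ℕ → YS Γ (m + 1), w 0 = y → (∏ j ∈ Finset.range b, M (w j) (w (j + 1)) ^ 2) ≠ 0 → ∃ v : W m, ‖v‖ ≤ s ∧ ∀ j ≤ b, w j ∈ Gs ∧ D (sc l (Φ (j * n1 * l) (κ z (0, v)))) (lft (y.1⁻¹ * (w j).1) (w j).2) ≤ s)
    (hwt : ∀ (w : ℕ → YS Γ (m + 1)) (v0 : W m), w 0 = y → ‖v0‖ ≤ s → (∀ j ≤ b, w j ∈ Gs ∧ D (sc l (Φ (j * n1 * l) (κ z (0, v0)))) (lft (y.1⁻¹ * (w j).1) (w j).2) ≤ 5 * s) →
      ∏ j ∈ Finset.range b, M (w j) (w (j + 1)) ^ 2 ≤ Wc * volume (BD D Φ κ z l (b * n1) ρ s v0))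
    (hV : ∀ (w : YS Γ (m + 1)) (v' : W m), w ∈ Gs → ‖v'‖ ≤ ρ → D (sc l (Φ (b * n1 * l) (κ z (0, v')))) (lft (y.1⁻¹ * w.1) w.2) ≤ 7 * s → V0 w.2 ≤ V1 (sc l (Φ (b * n1 * l) (κ z (0, v'))))) :
    qZ mu M b (fun y => V0 y.2) y ≤ Wc * mb ^ b * ∫⁻ w in Metric.closedBall (0 : W m) ρ, V1 (sc l (Φ (b * n1 * l) (κ z (0, w)))) := by
  have hsym : ∀ v w, DOBX_del D Φ κ z l (b * n1) v w = DOBX_del D Φ κ z l (b * n1) w v := by
    intro v w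
    refine le_antisymm (DOBX_del_le fun i hi => ?_) (DOBX_del_le fun i hi => ?_)
    · rw [(hd0 _ _).2.2]; exact DOBX_le hi
    · rw [(hd0 _ _).2.2]; exact DOBX_le hi
  have hzero : ∀ v, DOBX_del D Φ κ z l (b * n1) v v = 0 := by
    intro v
    refine le_antisymm (DOBX_del_le fun i hi => (hd0 _ (κ z 0)).2.1.le) ?_
    exact (hd0 (Φ ((0 : ℕ) * l) (κ z (0, v))) (Φ ((0 : ℕ) * l) (κ z (0, v)))).1.trans (DOBX_le (Nat.zero_le _))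
  obtain ⟨E, hE1, hE2, hE3⟩ := hSPT m s (2 * s) L (DOBX_del D Φ κ z l (b * n1)) (by linarith) hL hsym hzero
    (fun v w hv hw => DOBX_del_le fun i hi => hlip v w (hv.trans hse) (hw.trans hse) i hi)
  -- measurability of the Bowen discs
  have hmB : ∀ v0 : W m, MeasurableSet (BD D Φ κ z l (b * n1) ρ s v0) := by
    intro v0
    have h1 : BD D Φ κ z l (b * n1) ρ s v0 = Metric.closedBall (0 : W m) ρ ∩ ⋂ i : Fin (b * n1 + 1), (Metric.closedBall (0 : W m) ρ ∩ (fun v : W m => D (Φ ((i : ℕ) * l) (κ z (0, v0))) (Φ ((i : ℕ) * l) (κ z (0, v)))) ⁻¹' Iic s) := by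
      ext v
      simp only [BD, mem_setOf_eq, mem_inter_iff, Metric.mem_closedBall, dist_zero_right, mem_iInter, mem_preimage, mem_Iic]
      constructor
      · rintro ⟨h1, h2⟩
        exact ⟨h1, fun i => ⟨h1, h2 i (Nat.lt_succ_iff.1 i.2)⟩⟩
      · rintro ⟨h1, h2⟩
        exact ⟨h1, fun i hi => (h2 ⟨i, Nat.lt_succ_of_le hi⟩).2⟩
    rw [h1]
    refine Metric.isClosed_closedBall.measurableSet.inter (MeasurableSet.iInter fun i => ?_)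
    refine (ContinuousOn.preimage_isClosed_of_isClosed ?_ Metric.isClosed_closedBall isClosed_Iic).measurableSet
    refine (LipschitzOnWith.of_dist_le_mul (K := Real.toNNReal L) fun v hv w hw => ?_).continuousOn
    rw [Real.coe_toNNReal L hL, dist_eq_norm, Real.norm_eq_abs, dist_eq_norm]
    have hv' : ‖v‖ ≤ e1 := by simpa using (mem_closedBall_zero_iff.1 hv).trans hρe
    have hw' : ‖w‖ ≤ e1 := by simpa using (mem_closedBall_zero_iff.1 hw).trans hρe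
    have h3 := hlip v w hv' hw' i (Nat.lt_succ_iff.1 i.2)
    have h4 := hdt (Φ ((i : ℕ) * l) (κ z (0, v0))) (Φ ((i : ℕ) * l) (κ z (0, v))) (Φ ((i : ℕ) * l) (κ z (0, w)))
    have h5 := hdt (Φ ((i : ℕ) * l) (κ z (0, v0))) (Φ ((i : ℕ) * l) (κ z (0, w))) (Φ ((i : ℕ) * l) (κ z (0, v)))
    rw [(hd0 (Φ ((i : ℕ) * l) (κ z (0, w))) (Φ ((i : ℕ) * l) (κ z (0, v)))).2.2] at h5
    rw [abs_le]
    constructor <;> linarith
  have hdisj : ((E : Set (W m)).PairwiseDisjoint fun v0 => BD D Φ κ z l (b * n1) ρ s v0) := by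
    intro v hv w hw hvw
    rw [Function.onFun, Set.disjoint_left]
    intro u hu1 hu2
    have h1 : DOBX_del D Φ κ z l (b * n1) v w ≤ 2 * s := by
      refine DOBX_del_le fun i hi => ?_
      have a1 := hu1.2 i hi
      have a2 := hu2.2 i hi
      have a3 := hdt (Φ ((i : ℕ) * l) (κ z (0, v))) (Φ ((i : ℕ) * l) (κ z (0, u))) (Φ ((i : ℕ) * l) (κ z (0, w)))
      rw [(hd0 (Φ ((i : ℕ) * l) (κ z (0, u))) (Φ ((i : ℕ) * l) (κ z (0, w)))).2.2] at a3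
      linarith
    exact absurd (hE2 v hv w hw hvw) (not_lt.2 h1)
  -- the weights
  have key := hQZC (YS Γ (m + 1)) (W m) mu M (fun y => V0 y.2) E b
    (fun v => Wc * (volume (BD D Φ κ z l (b * n1) ρ s v) * ⨅ v' ∈ BD D Φ κ z l (b * n1) ρ s v, V1 (sc l (Φ (b * n1 * l) (κ z (0, v'))))))
    (fun v j => {y' : YS Γ (m + 1) | D (sc l (Φ (j * n1 * l) (κ z (0, v)))) (lft (y.1⁻¹ * y'.1) y'.2) ≤ 5 * s}) 1 y (fun v j => hmN v j) ?_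
  · rw [one_mul] at key
    refine key.trans ?_
    calc ∑ v ∈ E, Wc * (volume (BD D Φ κ z l (b * n1) ρ s v) * ⨅ v' ∈ BD D Φ κ z l (b * n1) ρ s v, V1 (sc l (Φ (b * n1 * l) (κ z (0, v'))))) *
          ∏ j ∈ Finset.range b, mu {y' : YS Γ (m + 1) | D (sc l (Φ ((j + 1 : ℕ) * n1 * l) (κ z (0, v)))) (lft (y.1⁻¹ * y'.1) y'.2) ≤ 5 * s}
        ≤ ∑ v ∈ E, Wc * (∫⁻ w in BD D Φ κ z l (b * n1) ρ s v, V1 (sc l (Φ (b * n1 * l) (κ z (0, w))))) * mb ^ b := by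
          refine Finset.sum_le_sum fun v hv => ?_
          refine mul_le_mul' (mul_le_mul' le_rfl ?_) ?_
          · rw [mul_comm, ← setLIntegral_const]
            exact setLIntegral_mono' (hmB v) fun w hw => iInf₂_le w hw
          · calc ∏ j ∈ Finset.range b, mu {y' : YS Γ (m + 1) | D (sc l (Φ ((j + 1 : ℕ) * n1 * l) (κ z (0, v)))) (lft (y.1⁻¹ * y'.1) y'.2) ≤ 5 * s} ≤ ∏ _j ∈ Finset.range b, mb :=
                Finset.prod_le_prod' fun j _ => hmu v (j + 1)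
              _ = mb ^ b := by rw [Finset.prod_const, Finset.card_range]
      _ = Wc * mb ^ b * ∑ v ∈ E, ∫⁻ w in BD D Φ κ z l (b * n1) ρ s v, V1 (sc l (Φ (b * n1 * l) (κ z (0, w)))) := by
          rw [Finset.mul_sum]
          refine Finset.sum_congr rfl fun v _ => ?_
          ring
      _ = Wc * mb ^ b * ∫⁻ w in ⋃ v ∈ E, BD D Φ κ z l (b * n1) ρ s v, V1 (sc l (Φ (b * n1 * l) (κ z (0, w)))) := by
          rw [lintegral_biUnion_finset hdisj (fun v _ => hmB v)]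
      _ ≤ Wc * mb ^ b * ∫⁻ w in Metric.closedBall (0 : W m) ρ, V1 (sc l (Φ (b * n1 * l) (κ z (0, w)))) := by
          refine mul_le_mul' le_rfl (lintegral_mono_set ?_)
          refine iUnion₂_subset fun v _ w hw => ?_
          exact mem_closedBall_zero_iff.2 hw.1
  · intro w hw0
    rw [one_mul]
    by_cases hp : (∏ j ∈ Finset.range b, M (w j) (w (j + 1)) ^ 2) = 0
    · rw [hp, zero_mul]; exact zero_le
    obtain ⟨vc, hvc, hcl⟩ := hch w hw0 hp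
    obtain ⟨v, hvE, hdel⟩ := hE3 vc hvc
    have h5 : ∀ j ≤ b, D (sc l (Φ (j * n1 * l) (κ z (0, v)))) (lft (y.1⁻¹ * (w j).1) (w j).2) ≤ 5 * s := by
      intro j hj
      have a1 := hdt (sc l (Φ (j * n1 * l) (κ z (0, v)))) (sc l (Φ (j * n1 * l) (κ z (0, vc)))) (lft (y.1⁻¹ * (w j).1) (w j).2)
      have a2 := s2 (Φ (j * n1 * l) (κ z (0, v))) (Φ (j * n1 * l) (κ z (0, vc)))
      have a3 := (hcl j hj).2
      have a4 : D (Φ (j * n1 * l) (κ z (0, v))) (Φ (j * n1 * l) (κ z (0, vc))) ≤ DOBX_del D Φ κ z l (b * n1) v vc := by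
        have := DOBX_le (D := D) (Φ := Φ) (κ := κ) (z := z) (l := l) (N := b * n1) (v := v) (w := vc) (i := j * n1) (Nat.mul_le_mul_right n1 hj)
        push_cast at this
        exact this
      linarith
    have hVle : V0 (w b).2 ≤ ⨅ v' ∈ BD D Φ κ z l (b * n1) ρ s v, V1 (sc l (Φ (b * n1 * l) (κ z (0, v')))) := by
      refine le_iInf₂ fun v' hv' => hV (w b) v' (hcl b le_rfl).1 hv'.1 ?_
      have a1 := hdt (sc l (Φ (b * n1 * l) (κ z (0, v')))) (sc l (Φ (b * n1 * l) (κ z (0, v)))) (lft (y.1⁻¹ * (w b).1) (w b).2)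
      have a2 := s2 (Φ (b * n1 * l) (κ z (0, v'))) (Φ (b * n1 * l) (κ z (0, v)))
      have a3 := h5 b le_rfl
      have a4 := hv'.2 (b * n1) le_rfl
      push_cast at a4
      rw [(hd0 _ _).2.2] at a4
      linarith
    have hprod : ∏ j ∈ Finset.range b, ({y' : YS Γ (m + 1) | D (sc l (Φ ((j + 1 : ℕ) * n1 * l) (κ z (0, v)))) (lft (y.1⁻¹ * y'.1) y'.2) ≤ 5 * s}).indicator (fun _ => (1 : ENNReal)) (w (j + 1)) = 1 := by
      refine Finset.prod_eq_one fun j hj => ?_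
      rw [Set.indicator_of_mem]
      exact h5 (j + 1) (Finset.mem_range.1 hj)
    refine le_trans ?_ (Finset.single_le_sum (f := fun v => Wc * (volume (BD D Φ κ z l (b * n1) ρ s v) * ⨅ v' ∈ BD D Φ κ z l (b * n1) ρ s v, V1 (sc l (Φ (b * n1 * l) (κ z (0, v'))))) *
        ∏ j ∈ Finset.range b, ({y' : YS Γ (m + 1) | D (sc l (Φ ((j + 1 : ℕ) * n1 * l) (κ z (0, v)))) (lft (y.1⁻¹ * y'.1) y'.2) ≤ 5 * s}).indicator (fun _ => (1 : ENNReal)) (w (j + 1))) (fun _ _ => zero_le) hvE)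
    rw [hprod, mul_one, ← mul_assoc]
    exact mul_le_mul' (hwt w v hw0 (hE1 v hvE) fun j hj => ⟨(hcl j hj).1, h5 j hj⟩) hVle

/-- measurability -/
theorem DOBX_meas0 {α β : Type} [MeasurableSpace β] (hc : Countable α) (S : α → Set β) (hS : ∀ a, MeasurableSet (S a)) : @MeasurableSet (α × β) (@Prod.instMeasurableSpace α β ⊤ _) {x | x.2 ∈ S x.1} := by
  letI : MeasurableSpace α := ⊤
  have h : {x : α × β | x.2 ∈ S x.1} = ⋃ a : α, ({a} : Set α) ×ˢ S a := by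
    ext x
    simp
  rw [h]
  exact MeasurableSet.iUnion fun a => (MeasurableSpace.measurableSet_top (s := ({a} : Set α))).prod (hS a)

theorem DOBX_meas {d : ℕ} (Γ : Type) [Group Γ] [MulAction Γ (V d)] (η : V d → ℝ) (hc : Countable Γ) (hD : Continuous (Function.uncurry (dP Γ η : P d → P d → ℝ))) (hL : ∀ γ : Γ, Continuous (lft γ : P d → P d)) (g : Γ) (p : P d) (s : ℝ) :
    MeasurableSet {y' : YS Γ d | dP Γ η p (lft (g⁻¹ * y'.1) y'.2) ≤ s} := by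
  have h2 : ∀ γ : Γ, MeasurableSet {q : P d | dP Γ η p (lft (g⁻¹ * γ) q) ≤ s} := fun γ =>
    (isClosed_le (hD.comp (continuous_const.prodMk (hL (g⁻¹ * γ)))) continuous_const).measurableSet
  exact DOBX_meas0 hc (fun γ : Γ => {q : P d | dP Γ η p (lft (g⁻¹ * γ) q) ≤ s}) h2

theorem DOBX_adm {C C' : ℝ} {A : Par} (h : Adm C A) (h1 : 1 ≤ C') (h2 : C' ≤ C) : Adm C' A ∧ 0 < A.z2 := by
  have hz := h.z
  have hz1 : 0 < A.z1 := lt_of_lt_of_le (mul_pos (by linarith) hz) h.z1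
  have hz2 : 0 < A.z2 := lt_of_lt_of_le (mul_pos (by linarith) hz1) h.z2
  refine ⟨⟨h.e2, ?_, hz, ?_, ?_, ?_⟩, hz2⟩
  · exact (mul_le_mul_of_nonneg_right h2 h.e2.le).trans h.e2'
  · exact (mul_le_mul_of_nonneg_right h2 hz.le).trans h.z1
  · exact (mul_le_mul_of_nonneg_right h2 hz1.le).trans h.z2
  · exact (mul_le_mul_of_nonneg_right h2 hz2.le).trans h.up

theorem DOBX_nrm {d : ℕ} {G : V d → V d →L[ℝ] V d} {p : P d} {δ : ℝ} (hE : |Ep G p| ≤ δ) (hδ : δ ≤ 7 / 32) : 3 / 4 ≤ nrm G p ∧ nrm G p ≤ 5 / 4 := by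
  have h1 := abs_le.mp hE
  unfold Ep Ham at h1
  have h2 : 9 / 16 ≤ inner ℝ (IG G p.1 p.2) p.2 := by linarith [h1.1]
  have h3 : inner ℝ (IG G p.1 p.2) p.2 ≤ 25 / 16 := by linarith [h1.2]
  unfold nrm
  refine ⟨Real.le_sqrt_of_sq_le (by linarith), ?_⟩
  calc Real.sqrt (inner ℝ (IG G p.1 p.2) p.2) ≤ Real.sqrt ((5 / 4) ^ 2) := Real.sqrt_le_sqrt (by linarith)
    _ = 5 / 4 := Real.sqrt_sq (by norm_num)

theorem DOBX_ev (e1 CV z2 : ℝ) (d : ℕ) (he1 : 0 < e1) (hCV : 0 < CV) (hz2 : 0 < z2) : ∃ R1 : ℝ, 1 ≤ R1 ∧ ∀ R : ℝ, R1 ≤ R → R ^ (-(5 / 12) : ℝ) ≤ e1 ∧ 7 * R ^ (-(1 / 12) : ℝ) ≤ 1 ∧ CV * 5 * R ^ (-(5 / 12) : ℝ) ≤ 1 ∧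
    R ^ (-(1 / 4) : ℝ) ≤ 1 / 8 ∧ CV * 5 ^ (2 * d) ≤ R ^ z2 := by
  have t1 : Tendsto (fun R : ℝ => R ^ (-(5 / 12) : ℝ)) atTop (𝓝 0) := tendsto_rpow_neg_atTop (by norm_num)
  have t2 : Tendsto (fun R : ℝ => R ^ (-(1 / 12) : ℝ)) atTop (𝓝 0) := tendsto_rpow_neg_atTop (by norm_num)
  have t3 : Tendsto (fun R : ℝ => R ^ (-(1 / 4) : ℝ)) atTop (𝓝 0) := tendsto_rpow_neg_atTop (by norm_num)
  have h1 : ∀ᶠ R : ℝ in atTop, R ^ (-(5 / 12) : ℝ) ≤ e1 := t1.eventually (ge_mem_nhds he1)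
  have h2 : ∀ᶠ R : ℝ in atTop, R ^ (-(1 / 12) : ℝ) ≤ 1 / 7 := t2.eventually (ge_mem_nhds (by norm_num))
  have h3 : ∀ᶠ R : ℝ in atTop, R ^ (-(5 / 12) : ℝ) ≤ 1 / (CV * 5) := t1.eventually (ge_mem_nhds (by positivity))
  have h4 : ∀ᶠ R : ℝ in atTop, R ^ (-(1 / 4) : ℝ) ≤ 1 / 8 := t3.eventually (ge_mem_nhds (by norm_num))
  have h5 := (tendsto_rpow_atTop hz2).eventually (eventually_ge_atTop (CV * 5 ^ (2 * d)))
  obtain ⟨R1, hR1⟩ := (((h1.and h2).and h3).and (h4.and h5)).exists_forall_of_atTop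
  refine ⟨max R1 1, le_max_right _ _, fun R hR => ?_⟩
  obtain ⟨⟨⟨a, b⟩, c⟩, e, f⟩ := hR1 R ((le_max_left _ _).trans hR)
  refine ⟨a, by linarith, ?_, e, f⟩
  have := mul_le_mul_of_nonneg_left c (by positivity : 0 ≤ CV * 5)
  rwa [mul_one_div_cancel (by positivity)] at this

/-- the exponents -/
theorem DOBX_exp {R C1 C2 C z2 : ℝ} {m b : ℕ} (hR : 1 ≤ R) (hz2 : 0 < z2) (hC : C2 + 1 + 2 * ((m : ℝ) + 1) * C1 ≤ C) :
    ENNReal.ofReal (R ^ (2 * ((m : ℝ) + 1) * b + (m : ℝ) / 2 + C2 * b * z2)) * ENNReal.ofReal (R ^ (z2 + (-(1 / 2) + C1 * z2) * (2 * (m + 1) : ℕ))) ^ b ≤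
      ENNReal.ofReal (R ^ (((m : ℝ) + 1) * b + (m : ℝ) / 2 + C * b * z2)) := by
  have hR0 : 0 < R := by linarith
  have hb : (0 : ℝ) ≤ b := Nat.cast_nonneg b
  rw [← ENNReal.ofReal_pow (Real.rpow_nonneg hR0.le _), ← ENNReal.ofReal_mul (Real.rpow_nonneg hR0.le _)]
  refine ENNReal.ofReal_le_ofReal ?_
  rw [← Real.rpow_natCast, ← Real.rpow_mul hR0.le, ← Real.rpow_add hR0]
  refine Real.rpow_le_rpow_of_exponent_le hR ?_
  have h1 : (C2 + 1 + 2 * ((m : ℝ) + 1) * C1) * (b * z2) ≤ C * (b * z2) := mul_le_mul_of_nonneg_right hC (by positivity)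
  push_cast
  linarith

theorem DOBX_vol {R C1 CV z2 : ℝ} {n : ℕ} (hR : 1 ≤ R) (hV : CV * 5 ^ n ≤ R ^ z2) :
    CV * (5 * R ^ (-(1 / 2) + C1 * z2)) ^ n ≤ R ^ (z2 + (-(1 / 2) + C1 * z2) * (n : ℕ)) := by
  have hR0 : 0 < R := by linarith
  have h0 : R ^ (z2 + (-(1 / 2) + C1 * z2) * (n : ℕ)) = R ^ z2 * (R ^ (-(1 / 2) + C1 * z2)) ^ n := by
    rw [Real.rpow_add hR0 z2, Real.rpow_mul hR0.le (-(1 / 2) + C1 * z2), Real.rpow_natCast]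
  rw [h0, mul_pow]
  calc CV * (5 ^ n * (R ^ (-(1 / 2) + C1 * z2)) ^ n) = CV * 5 ^ n * (R ^ (-(1 / 2) + C1 * z2)) ^ n := by ring
    _ ≤ R ^ z2 * (R ^ (-(1 / 2) + C1 * z2)) ^ n := mul_le_mul_of_nonneg_right hV (by positivity)

theorem DOBR_proof (hDCN : DCN_stmt) (hDWT : DWT_stmt) (hQZC : QZC_stmt) (hSPT : SPT_stmt) (hUBR : UBR_stmt) (hVBY : VBY_stmt) (hEFX : EFX_stmt) (hDPP : DPP_stmt) (hGLF : GLF_stmt) (hGHL : GHL_stmt) (hDFD : DFD_stmt) : DOBR_stmt := by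
  intro m Γ _ _ K r0 χ ch η k B c C' e0 e1 hm hK hPU hCH hη hc hC' he0 he1
  obtain ⟨C1, hC1, hDCN'⟩ := hDCN m Γ K r0 η k B c C' e0 e1 hK hPU.one hη hc hC' he0 he1
  obtain ⟨C2, hC2, hDWT'⟩ := hDWT m Γ K r0 χ ch η k B c C' e0 e1 C1 hK hPU hCH hη hc hC' he0 he1 hC1
  obtain ⟨CV, RV, hCV, hRV, hVBY'⟩ := hVBY (m + 1) Γ K k B η r0 hK hη
  obtain ⟨CE, hCE, hEFX'⟩ := hEFX (m + 1) Γ K k B η hK hη
  obtain ⟨hcount, -⟩ := hDFD (m + 1) Γ K hK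
  obtain ⟨-, hdnn, hdself, hdsymm, hdtri, hdinv, hdcont, -⟩ := hDPP (m + 1) Γ K η hK hη
  obtain ⟨hl1, hlm, hls, -⟩ := hGLF (m + 1) Γ hK.smooth
  have hm0 : (0 : ℝ) ≤ (m : ℝ) := Nat.cast_nonneg m
  have hC0 : C2 + 1 + 2 * ((m : ℝ) + 1) * C1 ≤ 12 * C1 + 12 * C2 + 2 * ((m : ℝ) + 1) * C1 := by linarith
  have hmC : 0 ≤ 2 * ((m : ℝ) + 1) * C1 := by positivity
  refine ⟨12 * C1 + 12 * C2 + 2 * ((m : ℝ) + 1) * C1, by linarith, fun A b hA hb => ?_⟩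
  obtain ⟨hA1, hz2⟩ := DOBX_adm hA hC1 (by linarith : C1 ≤ 12 * C1 + 12 * C2 + 2 * ((m : ℝ) + 1) * C1)
  obtain ⟨hA2, -⟩ := DOBX_adm hA hC2 (by linarith : C2 ≤ 12 * C1 + 12 * C2 + 2 * ((m : ℝ) + 1) * C1)
  obtain ⟨R1, hR1, hDCN''⟩ := hDCN' A b hA1 hb
  obtain ⟨R2, hR2, hDWT''⟩ := hDWT' A b hA2 hb
  obtain ⟨R3, hR3, hev⟩ := DOBX_ev e1 CV A.z2 (m + 1) he1 (by linarith) hz2
  refine ⟨max (max R1 R2) (max R3 RV), (hR1.trans (le_max_left _ _)).trans (le_max_left _ _), ?_⟩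
  intro R G Φ κ hR hG hΦ hS V0 V1 hV0 hV1 hinv hVV y hy
  have hRR1 : R1 ≤ R := ((le_max_left _ _).trans (le_max_left _ _)).trans hR
  have hRR2 : R2 ≤ R := ((le_max_right _ _).trans (le_max_left _ _)).trans hR
  have hRR3 : R3 ≤ R := ((le_max_left _ _).trans (le_max_right _ _)).trans hR
  have hRRV : RV ≤ R := ((le_max_right _ _).trans (le_max_right _ _)).trans hR
  have hR1' : 1 ≤ R := hR1.trans hRR1
  have hRp : 0 < R := by linarith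
  obtain ⟨hv1, hv2, hv3, hv4, hv5⟩ := hev R hRR3
  have hE := hEFX' CE le_rfl G Φ hG hΦ
  obtain ⟨hghl, -⟩ := hGHL (m + 1) Γ G hG.met hK.smooth hG.isom
  -- the exponents
  have hz12 : C1 * A.z2 ≤ 1 / 12 := by
    have h1 : (12 * C1) * A.z2 ≤ (12 * C1 + 12 * C2 + 2 * ((m : ℝ) + 1) * C1) * A.z2 := mul_le_mul_of_nonneg_right (by linarith) hz2.le
    linarith [hA.up]
  have hz22 : C2 * A.z2 ≤ 1 / 12 := by
    have h1 : (12 * C2) * A.z2 ≤ (12 * C1 + 12 * C2 + 2 * ((m : ℝ) + 1) * C1) * A.z2 := mul_le_mul_of_nonneg_right (by linarith) hz2.le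
    linarith [hA.up]
  have hs0 : 0 < R ^ (-(1 / 2) + C1 * A.z2) := Real.rpow_pos_of_pos hRp _
  have hs1 : R ^ (-(1 / 2) + C1 * A.z2) ≤ R ^ (-(5 / 12) : ℝ) := Real.rpow_le_rpow_of_exponent_le hR1' (by linarith)
  have hρ1 : R ^ (-(1 / 2) + C2 * A.z2) ≤ R ^ (-(5 / 12) : ℝ) := Real.rpow_le_rpow_of_exponent_le hR1' (by linarith)
  -- the starting point
  obtain ⟨hl34, hl54⟩ := DOBX_nrm hy.2 (by linarith : 5 / 4 * R ^ (-(1 / 4) : ℝ) ≤ 7 / 32)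
  have hl0 : 0 < nrm G y.2 := by linarith
  have hz : dir G y.2 ∈ Shl G := by
    show nrm G (sc (nrm G y.2)⁻¹ y.2) = 1
    rw [hE.sn, abs_of_pos (inv_pos.2 hl0), inv_mul_cancel₀ hl0.ne']
  have hmem : ∀ v : W m, ‖v‖ ≤ e1 → nrm G (κ (dir G y.2) (0, v)) = 1 := by
    intro v hv
    refine hS.mem _ hz _ ?_
    simpa [Prod.norm_def] using hv
  have htu : A.tu R = ((A.n R + 1 : ℕ) : ℝ) := by unfold Par.tu; push_cast; ring
  have hlip : ∀ v w : W m, ‖v‖ ≤ e1 → ‖w‖ ≤ e1 → ∀ i ≤ b * (A.n R + 1), dP Γ η (Φ (i * nrm G y.2) (κ (dir G y.2) (0, v))) (Φ (i * nrm G y.2) (κ (dir G y.2) (0, w))) ≤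
      CE * Real.exp (CE * ((b * (A.n R + 1) : ℕ) * nrm G y.2)) * C' * ‖v - w‖ := by
    intro v w hv hw i hi
    have h1 := hE.gr (κ (dir G y.2) (0, v)) (κ (dir G y.2) (0, w)) (i * nrm G y.2) (by rw [hmem v hv]; norm_num) (by rw [hmem w hw]; norm_num)
    have h2 := hS.cmp _ hz (0, v) (0, w) (by simpa [Prod.norm_def] using hv) (by simpa [Prod.norm_def] using hw)
    have h3 : ‖((0 : W m), v) - ((0 : W m), w)‖ = ‖v - w‖ := by simp [Prod.norm_def]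
    rw [h3] at h2
    have h4 : |(i : ℝ) * nrm G y.2| ≤ (b * (A.n R + 1) : ℕ) * nrm G y.2 := by
      rw [abs_of_nonneg (by positivity)]
      exact mul_le_mul_of_nonneg_right (by exact_mod_cast hi) hl0.le
    have h5 : Real.exp (CE * |(i : ℝ) * nrm G y.2|) ≤ Real.exp (CE * ((b * (A.n R + 1) : ℕ) * nrm G y.2)) := Real.exp_le_exp.2 (mul_le_mul_of_nonneg_left h4 (by linarith))
    calc dP Γ η (Φ (i * nrm G y.2) (κ (dir G y.2) (0, v))) (Φ (i * nrm G y.2) (κ (dir G y.2) (0, w)))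
        ≤ CE * Real.exp (CE * |(i : ℝ) * nrm G y.2|) * dP Γ η (κ (dir G y.2) (0, v)) (κ (dir G y.2) (0, w)) := h1
      _ ≤ CE * Real.exp (CE * ((b * (A.n R + 1) : ℕ) * nrm G y.2)) * (C' * ‖v - w‖) := by
          refine mul_le_mul (mul_le_mul_of_nonneg_left h5 (by linarith)) h2 (hdnn _ _) (by positivity)
      _ = CE * Real.exp (CE * ((b * (A.n R + 1) : ℕ) * nrm G y.2)) * C' * ‖v - w‖ := by ring
  have core := DOBX_core (Γ := Γ) hQZC hSPT (dP Γ η) Φ κ (fun x y => ‖ub G Φ r0 χ ch A R x y‖ₑ) (mW Γ G r0 R) V0 V1 y b (A.n R + 1) (nrm G y.2) (R ^ (-(1 / 2) + C1 * A.z2)) (R ^ (-(1 / 2) + C2 * A.z2)) e1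
    (CE * Real.exp (CE * ((b * (A.n R + 1) : ℕ) * nrm G y.2)) * C') (dir G y.2)
    (ENNReal.ofReal (R ^ (2 * ((m : ℝ) + 1) * b + (m : ℝ) / 2 + C2 * b * A.z2))) (ENNReal.ofReal (R ^ (A.z2 + (-(1 / 2) + C1 * A.z2) * (2 * (m + 1) : ℕ)))) (GW Γ G r0 (3 / 2) R)
    (fun p q => ⟨hdnn p q, hdself p, hdsymm p q⟩) hdtri (fun p q => hE.s2 p q _ hl0.le (by linarith)) (by positivity) hlip hs0 (hs1.trans hv1) (hρ1.trans hv1)
    (fun v j => DOBX_meas Γ η hcount hdcont (fun γ => (hls γ).continuous) y.1 _ _) ?_ ?_ ?_ ?_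
  · refine core.trans ?_
    refine mul_le_mul' (DOBX_exp hR1' hz2 hC0) ?_
    have h1 : Metric.closedBall (0 : W m) (R ^ (-(1 / 2) + C2 * A.z2)) ⊆ Metric.closedBall (0 : W m) (R ^ (-(1 / 2) + (12 * C1 + 12 * C2 + 2 * ((m : ℝ) + 1) * C1) * A.z2)) := by
      refine Metric.closedBall_subset_closedBall (Real.rpow_le_rpow_of_exponent_le hR1' ?_)
      have : C2 * A.z2 ≤ (12 * C1 + 12 * C2 + 2 * ((m : ℝ) + 1) * C1) * A.z2 := mul_le_mul_of_nonneg_right (by linarith) hz2.le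
      linarith
    refine (lintegral_mono_set h1).trans (le_of_eq ?_)
    refine lintegral_congr fun w => ?_
    have h2 : (b : ℝ) * ((A.n R + 1 : ℕ) : ℝ) * nrm G y.2 = nrm G y.2 * (b * A.tu R) := by rw [htu]; ring
    rw [h2]
    rfl
  · -- the measure
    intro v j
    have h1 : {y' : YS Γ (m + 1) | dP Γ η (sc (nrm G y.2) (Φ (j * (A.n R + 1 : ℕ) * nrm G y.2) (κ (dir G y.2) (0, v)))) (lft (y.1⁻¹ * y'.1) y'.2) ≤ 5 * R ^ (-(1 / 2) + C1 * A.z2)} ⊆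
        {y' : YS Γ (m + 1) | dP Γ η (lft (1 : Γ) (lft y.1 (sc (nrm G y.2) (Φ (j * (A.n R + 1 : ℕ) * nrm G y.2) (κ (dir G y.2) (0, v)))))) (lft y'.1 y'.2) ≤ 5 * R ^ (-(1 / 2) + C1 * A.z2)} := by
      intro y' hy'
      have h2 : lft y'.1 y'.2 = lft y.1 (lft (y.1⁻¹ * y'.1) y'.2) := by rw [← hlm, mul_inv_cancel_left]
      show dP Γ η _ _ ≤ _
      rw [hl1, h2, hdinv]
      exact hy'
    refine (measure_mono h1).trans ?_
    have h3 := hVBY' G R (5 * R ^ (-(1 / 2) + C1 * A.z2)) ((1 : Γ), lft y.1 (sc (nrm G y.2) (Φ (j * (A.n R + 1 : ℕ) * nrm G y.2) (κ (dir G y.2) (0, v))))) hG hRRV (by positivity) ?_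
    · refine h3.trans (ENNReal.ofReal_le_ofReal ?_)
      exact DOBX_vol hR1' hv5
    · have := mul_le_mul_of_nonneg_left hs1 (by linarith : 0 ≤ CV * 5)
      linarith
  · -- shadowing
    intro w hw0 hp
    have hch : ChD G Φ r0 A R b w := by
      intro j hj
      refine hUBR (m + 1) Γ G Φ r0 χ ch A R (w j) (w (j + 1)) fun h0 => hp ?_
      refine Finset.prod_eq_zero (Finset.mem_range.2 hj) ?_
      simp [h0]
    obtain ⟨v, hv, h1⟩ := hDCN'' R G Φ κ hRR1 hG hΦ hS w (by rw [hw0]; exact hy) hch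
    refine ⟨v, hv, fun j hj => ⟨(h1 j hj).1, ?_⟩⟩
    have h2 := (h1 j hj).2
    rw [hw0, htu] at h2
    exact h2
  · -- the weight
    intro w v0 hw0 hv0 h1
    have h2 := hDWT'' R G Φ κ hRR2 hG hΦ hS w v0 (by rw [hw0]; exact hy) hv0 (fun j hj => by
      refine ⟨(h1 j hj).1, ?_⟩
      rw [hw0, htu]
      exact (h1 j hj).2)
    rw [hw0] at h2
    exact h2
  · -- the end
    intro w v' hw hv' h1
    have hv'e : ‖v'‖ ≤ e1 := hv'.trans (hρ1.trans hv1)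
    have h7 : 7 * R ^ (-(1 / 2) + C1 * A.z2) ≤ R ^ (-(1 / 3) : ℝ) := by
      have h2 : R ^ (-(1 / 2) + C1 * A.z2) ≤ R ^ (-(1 / 12) : ℝ) * R ^ (-(1 / 3) : ℝ) := by
        rw [← Real.rpow_add hRp]
        exact Real.rpow_le_rpow_of_exponent_le hR1' (by linarith)
      have h3 : 0 ≤ R ^ (-(1 / 3) : ℝ) := Real.rpow_nonneg hRp.le _
      calc 7 * R ^ (-(1 / 2) + C1 * A.z2) ≤ 7 * (R ^ (-(1 / 12) : ℝ) * R ^ (-(1 / 3) : ℝ)) := by linarith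
        _ = (7 * R ^ (-(1 / 12) : ℝ)) * R ^ (-(1 / 3) : ℝ) := by ring
        _ ≤ 1 * R ^ (-(1 / 3) : ℝ) := mul_le_mul_of_nonneg_right hv2 h3
        _ = R ^ (-(1 / 3) : ℝ) := one_mul _
    obtain ⟨hw34, hw54⟩ := DOBX_nrm hw.2 (by linarith : 3 / 2 * R ^ (-(1 / 4) : ℝ) ≤ 7 / 32)
    have hn : nrm G (lft (y.1⁻¹ * w.1)⁻¹ (sc (nrm G y.2) (Φ (b * (A.n R + 1 : ℕ) * nrm G y.2) (κ (dir G y.2) (0, v'))))) = nrm G y.2 := by
      rw [(hghl _ _).2.1, hE.sn, hE.fn, hmem v' hv'e, abs_of_pos hl0, mul_one]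
    have h2 := hVV w.2 (lft (y.1⁻¹ * w.1)⁻¹ (sc (nrm G y.2) (Φ (b * (A.n R + 1 : ℕ) * nrm G y.2) (κ (dir G y.2) (0, v'))))) (by linarith) (by linarith) (by rw [hn]; linarith) (by rw [hn]; linarith) ?_
    · rwa [hinv] at h2
    · rw [← hdinv (y.1⁻¹ * w.1), ← hlm (y.1⁻¹ * w.1) (y.1⁻¹ * w.1)⁻¹, mul_inv_cancel, hl1, hdsymm]
      exact h1.trans h7

end

end Pool.Agent.VD
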