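import Pool.Agent.helper93.VD.SpecB4a
import Pool.Agent.helper82.VD.SpecH

/-!
# Project VD (MP_07c750_an), block B4, part b: large deviations on vertical discs for the true flow; the weak law in balls; rows `vd:LXX`

RULES as in SpecB4a (`import Pool.Agent.helper93.VD.SpecB4b`, namespace `Pool.Agent.VDL`).
-/

set_option autoImplicit false

open MeasureTheory Filter Set Topology
open scoped ENNReal

namespace Pool.Agent.VDL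

open Pool.Agent.VDE (BB av FlD UWLD mnV avV liou FDX)
open Pool.Agent.VD (W Z V P nrm lft)
open Pool.Agent.VDG (muS)

noncomputable section

/-- **Row LDT** (LARGE DEVIATIONS ON A VERTICAL DISC; short-medium; from LNT, LDS, LDV). `v0` of LDV; `A = {w | ‖w‖ ≤ ρ, 3e ≤ |av T2 (f T1 (δ w)) - M|}`, `E ⊆ A` a maximal subset with `(T1 + T2, ε)`-separated images (LNT with `X = W m`). `volume A ≤ Σ_(θ ∈ E) volume {w | ‖w‖ ≤ e1, δ w ∈ BB (T1+T2) (δθ) ε} ≤ C Σ μ (BB (T1+T2) (δθ) (16ε))` (`hd1`).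
LDS with `B = {y | 2e ≤ |av T2 y - M|}`, `β = C exp (1 - T2/T0)` (LDV, `x` arbitrary): `BB T2 (f T1 (δθ)) (ε/16) ⊆ B` because the averages differ by at most `e/16` (`hu`). `K = C · K_LDS · C · exp 1`. -/
def LDT_stmt : Prop := ∀ (m : ℕ) (C e : ℝ), 1 ≤ C → 0 < e → e ≤ 1 → ∃ v0 K : ℝ, 0 < v0 ∧ 1 ≤ K ∧ ∀ (S : Type) [TopologicalSpace S] [SecondCountableTopology S] [MeasurableSpace S] [BorelSpace S] (μ : Measure S) (d : S → S → ℝ) (f : ℝ → S → S) (ε : ℝ), VL μ d f ε C →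
  ∀ (h : S → ℝ) (M T0 : ℝ), WK μ d f h M e ε T0 v0 → ∀ (e1 a : ℝ) (δ : W m → S), DSK μ d f ε C e1 a δ →
    (∀ (w : W m) (T : ℝ), ‖w‖ ≤ e1 / 2 → 0 ≤ T → volume {w' : W m | ‖w'‖ ≤ e1 ∧ δ w' ∈ BB d f T (δ w) ε} ≤ ENNReal.ofReal C * μ (BB d f T (δ w) (16 * ε))) →
    ∀ ρ T1 T2 : ℝ, 0 < ρ → ρ ≤ e1 / 2 → 0 ≤ T1 → C * Real.exp (-(a * T1)) ≤ ρ → 4 * T0 / e ≤ T2 →
      volume {w : W m | ‖w‖ ≤ ρ ∧ 3 * e ≤ |av f h T2 (f T1 (δ w)) - M|} ≤ ENNReal.ofReal (K * ρ ^ m * Real.exp (-(T2 / T0)))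

/-- **LLW** (helper94) the measure of an invariant set in a ball -/
def LLW_stmt : Prop := ∀ (d : ℕ) (Γ : Type) [Group Γ] [MulAction Γ (V d)] (K : Set (V d)) (C : ℝ), 1 ≤ d → ∃ n0 : ℕ, 1 ≤ n0 ∧ ∀ (F0 : Set (V d)) (G : V d → V d →L[ℝ] V d) (Φ : ℝ → P d → P d) (dd : P d → P d → ℝ), FlD Γ K F0 G Φ C dd →
  ∀ (x : P d) (A : Set (P d)), nrm G x = 1 → MeasurableSet A → (∀ (γ : Γ) (p : P d), p ∈ A ↔ lft γ p ∈ A) → liou G ({y | nrm G y = 1 ∧ dd x y ≤ 1 / 8} ∩ A) ≤ n0 * liou G ({p | p.1 ∈ F0} ∩ A)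

/-- **Row LWK** (the weak law in every ball, on the shell; short-medium; from LLW, SNM, SLF of SpecE2). `ε1 ≤ 1/200` with `|h x - h y| ≤ e/16` for `x ∈ K`, `‖x - y‖ ≤ 16 C ε1 ≤ 1` (uniform continuity on the compact set `cthickening 1 K`); for arbitrary `x` translate by `γ` with `γ • x ∈ K` (`Dis.inv`, `Dis.lo`, `h` is invariant; `(lft γ p).1 = γ • p.1`). `M = mnV F0 G h ∈ [0, 1]`
(`0 ≤ h ≤ 1`, `dens ≥ 0`; the quotient is `0` if the denominator vanishes). `av f H T x = avV Φ h T x.1`. `muS G A = liou G (Subtype.val '' A)` (`comap_apply`; the shell is closed, so `Subtype.val` is a measurable embedding). `A = {p | e/8 ≤ |avV Φ h T0 p - M|}` is closed and invariant (`fe`, `inv`). -/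
def LWK_stmt : Prop := ∀ (d : ℕ) (Γ : Type) [Group Γ] [MulAction Γ (V d)] (K : Set (V d)) (C : ℝ) (h : V d → ℝ) (e : ℝ), 1 ≤ d → Continuous h → (∀ (γ : Γ) (x : V d), h (γ • x) = h x) → (∀ x, 0 ≤ h x ∧ h x ≤ 1) → 0 < e → ∃ (ε1 : ℝ) (n0 : ℕ), 0 < ε1 ∧ 1 ≤ n0 ∧
  ∀ (F0 : Set (V d)) (G : V d → V d →L[ℝ] V d) (Φ : ℝ → P d → P d) (dd : P d → P d → ℝ), FlD Γ K F0 G Φ C dd → ∀ (f : ℝ → VDG.Shl G → VDG.Shl G), (∀ (t : ℝ) (x : VDG.Shl G), (f t x).1 = Φ t x.1) →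
    ∀ ε T0 v0 : ℝ, 0 < ε → ε ≤ ε1 → 0 < T0 → 0 < v0 → UWLD F0 G Φ h (e / 8) v0 T0 → WK (muS G) (fun x y => dd x.1 y.1) f (fun x => h x.1.1) (mnV F0 G h) e ε T0 (n0 * v0)

end

end Pool.Agent.VDL
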